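import Pool.Agent.Work.MP_433a35_co.SI.Defs

set_option autoImplicit false
set_option linter.unusedSectionVars false

/-! Module BOX: on a box the true process agrees with the process in which the vertices of
`W = N(x) ∪ N(y)` never ring. -/

namespace SI

open Finset Classical

noncomputable section

variable {V : Type} [Fintype V]

/-- The neighbourhood of the edge `xy`. -/
def nb (G : SimpleGraph V) (x y : V) : Finset V := univ.filter fun z => G.Adj x z ∨ G.Adj y z

/-- The ring sets without the vertices of `W`. -/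
def out (W : Finset V) (r : ℕ → Set V) (j : ℕ) : Set V := r j \ (W : Set V)

/-- The live vertices of `nb G x y` in the outside process. -/
def gs (G : SimpleGraph V) (r : ℕ → Set V) (x y : V) (j : ℕ) : Finset V :=
  (nb G x y).filter fun z => z ∈ al G (out (nb G x y) r) j

/-- The live neighbours of `x` in the outside process. -/
def ga (G : SimpleGraph V) (r : ℕ → Set V) (x y : V) (j : ℕ) : ℕ :=
  (univ.filter fun z => G.Adj x z ∧ z ∈ gs G r x y j).card

/-- The box `(i, x → y)`. -/
def box (G : SimpleGraph V) (r : ℕ → Set V) (x y : V) (i : ℕ) : Prop :=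
  (∀ j, j < i → ∀ z ∈ gs G r x y j, z ∉ r j) ∧ x ∈ r i ∧ ∀ z ∈ gs G r x y i, z ≠ x → z ∉ r i

lemma mem_nb {G : SimpleGraph V} {x y z : V} : z ∈ nb G x y ↔ (G.Adj x z ∨ G.Adj y z) := by
  simp [nb]

lemma mem_gs {G : SimpleGraph V} {r : ℕ → Set V} {x y z : V} {j : ℕ} :
    z ∈ gs G r x y j ↔ (G.Adj x z ∨ G.Adj y z) ∧ z ∈ al G (out (nb G x y) r) j := by
  simp [gs, mem_nb]

lemma gs_anti (G : SimpleGraph V) (r : ℕ → Set V) (x y : V) {i j : ℕ} (h : i ≤ j) :
    gs G r x y j ⊆ gs G r x y i := by
  intro z hz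
  rw [mem_gs] at hz ⊢
  exact ⟨hz.1, al_anti G _ h hz.2⟩

/-- `x` stays alive in the outside process (and so does `y`, by symmetry). -/
lemma left_mem_gs (G : SimpleGraph V) (r : ℕ → Set V) {x y : V} (h : G.Adj x y) (j : ℕ) :
    x ∈ gs G r x y j := by
  rw [mem_gs]
  refine ⟨Or.inr h.symm, ?_⟩
  induction j with
  | zero => exact Set.mem_univ _
  | succ j ih =>
    rw [al_succ]
    refine ⟨ih, ?_, ?_⟩
    · intro hc
      have := hc.2.1
      exact this.2 (by simpa using (mem_nb.mpr (Or.inr h.symm) : x ∈ nb G x y))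
    · intro u hu hc
      have := hc.2.1
      exact this.2 (by simpa using (mem_nb.mpr (Or.inl hu) : u ∈ nb G x y))

lemma nb_comm (G : SimpleGraph V) (x y : V) : nb G x y = nb G y x := by
  ext z
  rw [mem_nb, mem_nb, or_comm]

lemma gs_comm (G : SimpleGraph V) (r : ℕ → Set V) (x y : V) (j : ℕ) :
    gs G r x y j = gs G r y x j := by
  unfold gs
  rw [nb_comm]

lemma right_mem_gs (G : SimpleGraph V) (r : ℕ → Set V) {x y : V} (h : G.Adj x y) (j : ℕ) :
    y ∈ gs G r x y j := by
  rw [gs_comm]
  exact left_mem_gs G r h.symm j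

/-- If no live vertex of `W` rings, the vertices of `W` may be removed from the ring set. -/
lemma chs_sdiff (G : SimpleGraph V) (A ρ : Set V) (W : Finset V)
    (h : ∀ z ∈ W, z ∈ A → z ∉ ρ) : chs G A ρ = chs G A (ρ \ (W : Set V)) := by
  ext v
  constructor
  · rintro ⟨hA, hr, hu⟩
    refine ⟨hA, ⟨hr, fun hW => h v (by simpa using hW) hA hr⟩, fun u hvu huA hur => ?_⟩
    exact hu u hvu huA hur.1
  · rintro ⟨hA, hr, hu⟩
    refine ⟨hA, hr.1, fun u hvu huA hur => ?_⟩
    by_cases hW : u ∈ W
    · exact h u hW huA hur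
    · exact hu u hvu huA ⟨hur, by simpa using hW⟩

/-- On a box the true process agrees with the outside process. -/
lemma box_al (G : SimpleGraph V) (r : ℕ → Set V) {x y : V} (h : G.Adj x y) (i : ℕ)
    (hb : box G r x y i) {j : ℕ} (hj : j ≤ i) : al G r j = al G (out (nb G x y) r) j := by
  induction j with
  | zero => rfl
  | succ j ih =>
    have ih' := ih (by omega)
    rw [al_succ, al_succ, ih']
    have hc : chs G (al G (out (nb G x y) r) j) (r j)
        = chs G (al G (out (nb G x y) r) j) (out (nb G x y) r j) := by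
      apply chs_sdiff
      intro z hz hzA
      exact hb.1 j (by omega) z (mem_gs.mpr ⟨mem_nb.mp hz, hzA⟩)
    unfold nxt
    rw [hc]

/-- In the round of the box `x` is the only additional chosen vertex. -/
lemma box_chs (G : SimpleGraph V) (r : ℕ → Set V) {x y : V} (h : G.Adj x y) (i : ℕ)
    (hb : box G r x y i) (v : V) :
    v ∈ chs G (al G (out (nb G x y) r) i) (r i) ↔
      (v ∈ chs G (al G (out (nb G x y) r) i) (out (nb G x y) r i) ∨ v = x) := by
  constructor
  · rintro ⟨hA, hr, hu⟩
    by_cases hW : v ∈ nb G x y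
    · right
      by_contra hne
      exact hb.2.2 v (mem_gs.mpr ⟨mem_nb.mp hW, hA⟩) hne hr
    · left
      exact ⟨hA, ⟨hr, by simpa using hW⟩, fun u hvu huA hur => hu u hvu huA hur.1⟩
  · rintro (⟨hA, hr, hu⟩ | rfl)
    · refine ⟨hA, hr.1, fun u hvu huA hur => ?_⟩
      by_cases hW : u ∈ nb G x y
      · by_cases hux : u = x
        · subst hux
          exact hr.2 (by simpa using (mem_nb.mpr (Or.inl hvu.symm) : v ∈ nb G u y))
        · exact hb.2.2 u (mem_gs.mpr ⟨mem_nb.mp hW, huA⟩) hux hur
      · exact hu u hvu huA ⟨hur, by simpa using hW⟩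
    · refine ⟨(mem_gs.mp (left_mem_gs G r h i)).2, hb.2.1, fun u hvu huA => ?_⟩
      exact hb.2.2 u (mem_gs.mpr ⟨Or.inl hvu, huA⟩) hvu.ne'

/-- After the round of the box, outside `N(x) ∪ {x}`, too. -/
lemma box_al_succ (G : SimpleGraph V) (r : ℕ → Set V) {x y : V} (h : G.Adj x y) (i : ℕ)
    (hb : box G r x y i) {z : V} (hz : G.Adj y z) (hxz : ¬ G.Adj x z) (hzx : z ≠ x) :
    z ∈ al G r (i + 1) ↔ z ∈ gs G r x y (i + 1) := by
  rw [mem_gs, al_succ, al_succ, box_al G r h i hb le_rfl]
  have key : z ∈ nxt G (al G (out (nb G x y) r) i) (r i) ↔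
      z ∈ nxt G (al G (out (nb G x y) r) i) (out (nb G x y) r i) := by
    constructor
    · rintro ⟨hA, hc, hu⟩
      exact ⟨hA, fun hc' => hc ((box_chs G r h i hb z).mpr (Or.inl hc')),
        fun u hzu hc' => hu u hzu ((box_chs G r h i hb u).mpr (Or.inl hc'))⟩
    · rintro ⟨hA, hc, hu⟩
      refine ⟨hA, fun hc' => ?_, fun u hzu hc' => ?_⟩
      · rcases (box_chs G r h i hb z).mp hc' with h1 | h1
        · exact hc h1
        · exact hzx h1
      · rcases (box_chs G r h i hb u).mp hc' with h1 | h1
        · exact hu u hzu h1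
        · subst h1
          exact hxz hzu.symm
  rw [key]
  exact ⟨fun h1 => ⟨Or.inr hz, h1⟩, fun h1 => h1.2⟩

/-- On the box the oriented edge `(x, y)` is hit. -/
theorem box_hit (G : SimpleGraph V) (r : ℕ → Set V) {x y : V} (h : G.Adj x y) (i : ℕ)
    (hb : box G r x y i) : hit G r i x y := by
  refine ⟨h, ?_, ?_, hb.2.1, ?_⟩
  · rw [box_al G r h i hb le_rfl]
    exact (mem_gs.mp (left_mem_gs G r h i)).2
  · rw [box_al G r h i hb le_rfl]
    exact (mem_gs.mp (right_mem_gs G r h i)).2
  · intro z hz hzx hzA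
    rw [box_al G r h i hb le_rfl] at hzA
    exact hb.2.2 z (mem_gs.mpr ⟨hz, hzA⟩) hzx

/-- On the box the oriented edge `(x, y)` is accepted at all levels `l` with
`(q - k) D + l a < q (a + b)`. -/
theorem box_acc (G : SimpleGraph V) (r : ℕ → Set V) {x y : V} (h : G.Adj x y) (D q k i l : ℕ)
    (hD : ∀ v, (univ.filter fun u => G.Adj v u).card ≤ D) (hkq : k ≤ q) (hlq : l < q)
    (hb : box G r x y i)
    (hl : (q - k) * D + l * ga G r x y (i + 1) < q * (ga G r x y (i + 1) + ga G r y x (i + 1))) :
    accAt G r D q k i l x y := by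
  refine ⟨box_hit G r h i hb, ?_⟩
  have h1 : ga G r x y (i + 1) ≤ (st G r i x).card := by
    apply Finset.card_le_card
    intro z hz
    simp only [Finset.mem_filter, Finset.mem_univ, true_and] at hz
    simp only [st, Finset.mem_filter, Finset.mem_univ, true_and]
    refine ⟨hz.1, ?_⟩
    rw [box_al G r h i hb le_rfl]
    exact (mem_gs.mp (gs_anti G r x y (Nat.le_succ i) hz.2)).2
  have h2 : (st G r i x).card + (kx G r i x).card ≤ D := by
    have hdis : Disjoint (st G r i x) (kx G r i x) := by
      rw [Finset.disjoint_left]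
      intro z hz hz'
      simp only [st, Finset.mem_filter, Finset.mem_univ, true_and] at hz
      simp only [kx, Finset.mem_filter, Finset.mem_univ, true_and] at hz'
      exact hz'.2 hz.2
    rw [← Finset.card_union_of_disjoint hdis]
    refine le_trans (Finset.card_le_card ?_) (hD x)
    intro z hz
    simp only [Finset.mem_union, st, kx, Finset.mem_filter, Finset.mem_univ, true_and] at hz
    simp only [Finset.mem_filter, Finset.mem_univ, true_and]
    rcases hz with hz | hz
    · exact hz.1
    · exact hz.1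
  have h3 : (ky G r i x y).card + ga G r y x (i + 1) ≤ D := by
    have hdis : Disjoint (ky G r i x y)
        (univ.filter fun z => G.Adj y z ∧ z ∈ gs G r y x (i + 1)) := by
      rw [Finset.disjoint_left]
      intro z hz hz'
      simp only [ky, Finset.mem_filter, Finset.mem_univ, true_and] at hz
      simp only [Finset.mem_filter, Finset.mem_univ, true_and] at hz'
      apply hz.2.2.2
      rw [box_al_succ G r h i hb hz.1 hz.2.1 hz.2.2.1, gs_comm]
      exact hz'.2
    unfold ga
    rw [← Finset.card_union_of_disjoint hdis]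
    refine le_trans (Finset.card_le_card ?_) (hD y)
    intro z hz
    simp only [Finset.mem_union, ky, Finset.mem_filter, Finset.mem_univ, true_and] at hz
    simp only [Finset.mem_filter, Finset.mem_univ, true_and]
    rcases hz with hz | hz
    · exact hz.1
    · exact hz.1
  obtain ⟨t, rfl⟩ := Nat.exists_eq_add_of_le hkq
  obtain ⟨u, hu⟩ := Nat.exists_eq_add_of_lt hlq
  rw [Nat.add_sub_cancel_left] at hl
  generalize (st G r i x).card = s at *
  generalize (kx G r i x).card = kk at *
  generalize (ky G r i x y).card = kk' at *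
  generalize ga G r x y (i + 1) = a at *
  generalize ga G r y x (i + 1) = b at *
  have e1 : (k + t) * (s + kk) ≤ (k + t) * D := Nat.mul_le_mul_left _ h2
  have e2 : (k + t) * (kk' + b) ≤ (k + t) * D := Nat.mul_le_mul_left _ h3
  have e3 : (u + 1) * a ≤ (u + 1) * s := Nat.mul_le_mul_left _ h1
  have e4 : (k + t) * s = l * s + (u + 1) * s := by rw [hu]; ring
  have e5 : (k + t) * a = l * a + (u + 1) * a := by rw [hu]; ring
  nlinarith [e1, e2, e3, e4, e5, hl]

/-- The boxes are disjoint: same orientation. -/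
lemma box_disj (G : SimpleGraph V) (r : ℕ → Set V) {x y : V} (h : G.Adj x y) {i j : ℕ}
    (hb : box G r x y i) (hb' : box G r x y j) : i = j := by
  rcases lt_trichotomy i j with hij | hij | hij
  · exact absurd hb.2.1 (hb'.1 i hij x (left_mem_gs G r h i))
  · exact hij
  · exact absurd hb'.2.1 (hb.1 j hij x (left_mem_gs G r h j))

/-- The boxes are disjoint: opposite orientations. -/
lemma box_disj' (G : SimpleGraph V) (r : ℕ → Set V) {x y : V} (h : G.Adj x y) {i j : ℕ}
    (hb : box G r x y i) (hb' : box G r y x j) : False := by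
  rcases lt_trichotomy i j with hij | hij | hij
  · exact hb'.1 i hij x (right_mem_gs G r h.symm i) hb.2.1
  · subst hij
    exact hb.2.2 y (right_mem_gs G r h i) h.ne' hb'.2.1
  · exact hb.1 j hij y (right_mem_gs G r h j) hb'.2.1

lemma card_gs_le (G : SimpleGraph V) (r : ℕ → Set V) (x y : V) (i : ℕ) :
    (gs G r x y i).card ≤ ga G r x y i + ga G r y x i := by
  unfold ga
  refine le_trans (Finset.card_le_card ?_) (Finset.card_union_le _ _)
  intro z hz
  simp only [Finset.mem_union, Finset.mem_filter, Finset.mem_univ, true_and]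
  rcases (mem_gs.mp hz).1 with h1 | h1
  · exact Or.inl ⟨h1, hz⟩
  · right
    exact ⟨h1, by rwa [gs_comm]⟩

lemma ga_pos (G : SimpleGraph V) (r : ℕ → Set V) {x y : V} (h : G.Adj x y) (i : ℕ) :
    1 ≤ ga G r x y i := by
  unfold ga
  rw [Nat.one_le_iff_ne_zero]
  apply Finset.card_ne_zero_of_mem (a := y)
  simp only [Finset.mem_filter, Finset.mem_univ, true_and]
  exact ⟨h, right_mem_gs G r h i⟩

lemma ga_le (G : SimpleGraph V) (r : ℕ → Set V) (x y : V) (D : ℕ)
    (hD : ∀ v, (univ.filter fun u => G.Adj v u).card ≤ D) (i : ℕ) : ga G r x y i ≤ D := by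
  unfold ga
  refine le_trans (Finset.card_le_card ?_) (hD x)
  intro z hz
  simp only [Finset.mem_filter, Finset.mem_univ, true_and] at hz ⊢
  exact hz.1

/-- The outside process depends only on the ring sets outside `nb G x y`. -/
lemma gs_congr (G : SimpleGraph V) (r r' : ℕ → Set V) (x y : V)
    (h : ∀ j z, z ∉ nb G x y → (z ∈ r j ↔ z ∈ r' j)) (i : ℕ) :
    gs G r x y i = gs G r' x y i := by
  have hout : out (nb G x y) r = out (nb G x y) r' := by
    funext j
    ext z
    constructor
    · rintro ⟨h1, h2⟩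
      exact ⟨(h j z (by simpa using h2)).mp h1, h2⟩
    · rintro ⟨h1, h2⟩
      exact ⟨(h j z (by simpa using h2)).mpr h1, h2⟩
  unfold gs
  rw [hout]

end

end SI
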