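import Mathlib

set_option autoImplicit false

/-! Module LOWTAIL: the lower Chernoff bound for independent variables with values in `[0, q]`. -/

namespace SI

open Finset Classical

/-- `(1 - η) log (1 - η) ≥ -η + η² / 2`. -/
lemma low_log (η : ℝ) (hη : 0 ≤ η) (h1 : η < 1) :
    -η + η ^ 2 / 2 ≤ (1 - η) * Real.log (1 - η) := by
  have hy : (0 : ℝ) < 1 - η := by linarith
  have hx : 0 ≤ -Real.log (1 - η) := by
    have := Real.log_nonpos hy.le (by linarith)
    linarith
  have h2 := Real.self_le_sinh_iff.2 hx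
  rw [Real.sinh_eq, neg_neg, Real.exp_log hy, Real.exp_neg, Real.exp_log hy] at h2
  have h3 := mul_le_mul_of_nonneg_left h2 hy.le
  have h4 : (1 - η) * (((1 - η)⁻¹ - (1 - η)) / 2) = (1 - (1 - η) ^ 2) / 2 := by
    field_simp
  rw [h4] at h3
  nlinarith

theorem lowtail {S Ω : Type} [Fintype S] [DecidableEq S] [Fintype Ω] [Nonempty Ω] (X : S → Ω → ℕ) (q : ℕ) (hq : 1 ≤ q)
    (hX : ∀ s a, X s a ≤ q) (μ η : ℝ) (hη : 0 ≤ η) (hμ : 0 ≤ μ)
    (h : μ * (Fintype.card Ω : ℝ) ≤ ∑ s, ∑ a, (X s a : ℝ)) :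
    ((univ.filter fun f : S → Ω => (∑ s, (X s (f s) : ℝ)) < (1 - η) * μ).card : ℝ) ≤
      Real.exp (-(η ^ 2 * μ / (2 * q))) * (Fintype.card (S → Ω) : ℝ) := by
  have hq0 : (0 : ℝ) < q := by exact_mod_cast hq
  rcases le_or_gt 1 η with h1 | h1
  · -- the event is empty
    have he : (univ.filter fun f : S → Ω => (∑ s, (X s (f s) : ℝ)) < (1 - η) * μ) = ∅ := by
      rw [filter_eq_empty_iff]
      intro f _ hf
      have h2 : (0 : ℝ) ≤ ∑ s, (X s (f s) : ℝ) := sum_nonneg fun s _ => Nat.cast_nonneg _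
      have h3 : (1 - η) * μ ≤ 0 := mul_nonpos_of_nonpos_of_nonneg (by linarith) hμ
      linarith
    rw [he, card_empty, Nat.cast_zero]
    positivity
  have h1s : (0 : ℝ) < 1 - η := by linarith
  have hcard : (0 : ℝ) < (Fintype.card Ω : ℝ) := by
    exact_mod_cast Fintype.card_pos
  let Y : S → Ω → ℝ := fun i w => (X i w : ℝ) / q
  have hY0 : ∀ i w, 0 ≤ Y i w := fun i w => by positivity
  have hY1 : ∀ i w, Y i w ≤ 1 := fun i w => by
    simp only [Y]
    rw [div_le_one hq0]
    exact_mod_cast hX i w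
  let g : S → Ω → ℝ := fun i w => (1 - η) ^ (Y i w)
  have hg1 : ∀ i, ∑ w, g i w ≤
      (Fintype.card Ω : ℝ) * Real.exp (-(η * ((∑ w, Y i w) / Fintype.card Ω))) := by
    intro i
    have h2 : ∀ w, g i w ≤ 1 - η * Y i w := by
      intro w
      have h3 := rpow_one_add_le_one_add_mul_self (s := -η) (by linarith) (hY0 i w) (hY1 i w)
      have h4 : (1 : ℝ) + -η = 1 - η := by ring
      rw [h4] at h3
      have h5 : 1 + Y i w * -η = 1 - η * Y i w := by ring
      rw [h5] at h3
      exact h3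
    have h3 : ∑ w, g i w ≤ (Fintype.card Ω : ℝ) - η * ∑ w, Y i w := by
      calc ∑ w, g i w ≤ ∑ w, (1 - η * Y i w) := sum_le_sum fun w _ => h2 w
        _ = (Fintype.card Ω : ℝ) - η * ∑ w, Y i w := by
            rw [sum_sub_distrib, sum_const, card_univ, nsmul_eq_mul, mul_one, mul_sum]
    refine h3.trans ?_
    have h4 := Real.add_one_le_exp (-(η * ((∑ w, Y i w) / Fintype.card Ω)))
    have h5 := mul_le_mul_of_nonneg_left h4 hcard.le
    have h6 : (Fintype.card Ω : ℝ) * (-(η * ((∑ w, Y i w) / Fintype.card Ω)) + 1) =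
        (Fintype.card Ω : ℝ) - η * ∑ w, Y i w := by
      field_simp
      ring
    rw [h6] at h5
    exact h5
  have hg0 : ∀ i, 0 ≤ ∑ w, g i w := fun i =>
    sum_nonneg fun w _ => Real.rpow_nonneg h1s.le _
  have hprod : ∀ w : S → Ω, ∏ i, g i (w i) = (1 - η) ^ (∑ i, Y i (w i)) := by
    intro w
    simp only [g]
    rw [Real.rpow_sum_of_pos h1s]
  have hsum : ∑ w : S → Ω, (1 - η) ^ (∑ i, Y i (w i)) = ∏ i, ∑ w, g i w := by
    rw [prod_univ_sum, Fintype.piFinset_univ]
    exact sum_congr rfl fun w _ => (hprod w).symm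
  have hYsum : ∑ i, ∑ w, Y i w = (∑ i, ∑ w, (X i w : ℝ)) / q := by
    simp only [Y]
    rw [sum_div]
    exact sum_congr rfl fun i _ => by rw [sum_div]
  have hG : ∑ w : S → Ω, (1 - η) ^ (∑ i, Y i (w i)) ≤
      Real.exp (-(η * (μ / q))) * (Fintype.card (S → Ω) : ℝ) := by
    rw [hsum]
    calc ∏ i, ∑ w, g i w ≤
        ∏ i, ((Fintype.card Ω : ℝ) * Real.exp (-(η * ((∑ w, Y i w) / Fintype.card Ω)))) :=
          prod_le_prod (fun i _ => hg0 i) (fun i _ => hg1 i)
      _ = (Fintype.card Ω : ℝ) ^ (Fintype.card S) *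
            Real.exp (∑ i, -(η * ((∑ w, Y i w) / Fintype.card Ω))) := by
          rw [prod_mul_distrib, prod_const, card_univ, Real.exp_sum]
      _ ≤ (Fintype.card Ω : ℝ) ^ (Fintype.card S) * Real.exp (-(η * (μ / q))) := by
          apply mul_le_mul_of_nonneg_left _ (by positivity)
          apply Real.exp_le_exp.2
          rw [sum_neg_distrib, ← mul_sum, ← sum_div, hYsum]
          apply neg_le_neg
          apply mul_le_mul_of_nonneg_left _ hη
          rw [div_div, mul_comm (q : ℝ), ← div_div]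
          apply div_le_div_of_nonneg_right _ hq0.le
          rw [le_div_iff₀ hcard]
          exact h
      _ = _ := by
          rw [mul_comm]
          congr 1
          rw [Fintype.card_fun]
          push_cast
          rfl
  have hM : ((univ.filter fun w : S → Ω => (∑ s, (X s (w s) : ℝ)) < (1 - η) * μ).card : ℝ) *
      Real.exp ((1 - η) * (μ / q) * Real.log (1 - η)) ≤
      ∑ w : S → Ω, (1 - η) ^ (∑ i, Y i (w i)) := by
    rw [← nsmul_eq_mul, ← sum_const, sum_filter]
    refine sum_le_sum fun w _ => ?_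
    split_ifs with h2
    · rw [Real.rpow_def_of_pos h1s]
      apply Real.exp_le_exp.2
      rw [mul_comm (Real.log (1 - η))]
      apply mul_le_mul_of_nonpos_right _ (Real.log_nonpos h1s.le (by linarith))
      have h3 : ∑ i, Y i (w i) = (∑ i, (X i (w i) : ℝ)) / q := by
        simp only [Y]
        rw [sum_div]
      rw [h3, ← mul_div_assoc]
      exact div_le_div_of_nonneg_right h2.le hq0.le
    · exact Real.rpow_nonneg h1s.le _
  have hfin := hM.trans hG
  have hexp : Real.exp (-(η * (μ / q))) ≤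
      Real.exp (-(η ^ 2 * μ / (2 * q))) * Real.exp ((1 - η) * (μ / q) * Real.log (1 - η)) := by
    rw [← Real.exp_add]
    apply Real.exp_le_exp.2
    have hlog := low_log η hη h1
    have h3 := mul_le_mul_of_nonneg_right hlog (show (0 : ℝ) ≤ μ / q by positivity)
    have h4 : -(η ^ 2 * μ / (2 * q)) = -(η ^ 2 / 2) * (μ / q) := by
      field_simp
    rw [h4]
    nlinarith
  have hpos : 0 < Real.exp ((1 - η) * (μ / q) * Real.log (1 - η)) := Real.exp_pos _
  have hfin2 := hfin.trans (mul_le_mul_of_nonneg_right hexp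
    (Nat.cast_nonneg (α := ℝ) (Fintype.card (S → Ω))))
  have hfin3 : ((univ.filter fun w : S → Ω => (∑ s, (X s (w s) : ℝ)) < (1 - η) * μ).card : ℝ) *
      Real.exp ((1 - η) * (μ / q) * Real.log (1 - η)) ≤
      (Real.exp (-(η ^ 2 * μ / (2 * q))) * (Fintype.card (S → Ω) : ℝ)) *
        Real.exp ((1 - η) * (μ / q) * Real.log (1 - η)) := by
    refine hfin2.trans (le_of_eq ?_)
    ring
  exact le_of_mul_le_mul_right hfin3 hpos

end SI
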