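import Pool.Agent.Work.MP_433a35_co.SI.Local
import Pool.Agent.Work.MP_433a35_co.SI.LowTail
import Pool.Agent.Work.MP_433a35_co.Asm.LLL

set_option autoImplicit false
set_option linter.unusedSectionVars false

/-! Module COINS: first application of the local lemma (abstract level function `X`). -/

namespace SI

open Finset Classical

noncomputable section

variable {V : Type} [Fintype V]

/-- There are coins for `R` stages of every type such that every edge has many levels. -/
theorem coins (G : SimpleGraph V) (D : ℕ) (hD : ∀ v, (univ.filter fun u => G.Adj v u).card ≤ D)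
    (Ty Ω : Type) [Fintype Ty] [Fintype Ω] [Nonempty Ω] (X : Ty → (V → Ω) → V → V → ℕ)
    (R q ρ : ℕ) (hq : 1 ≤ q) (hX : ∀ t c x y, X t c x y ≤ q)
    (hloc : ∀ t c c' x y, G.Adj x y → (∀ u ∈ bl G ρ x, c u = c' u) → X t c x y = X t c' x y)
    (μ η : ℝ) (hμ : 0 ≤ μ) (h0 : 0 ≤ η)
    (hm : ∀ x y, G.Adj x y →
      μ * (Fintype.card (V → Ω) : ℝ) ≤ ∑ t, ∑ c : V → Ω, (X t c x y : ℝ))
    (hC : 4 * Real.exp (-(η ^ 2 * (R * μ) / (2 * q))) * (((D + 1) ^ (2 * ρ + 1) : ℕ) : ℝ) ≤ 1) :
    ∃ w : Ty × Fin R → V → Ω, ∀ x y, G.Adj x y →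
      (1 - η) * (R * μ) ≤ ∑ s : Ty × Fin R, (X s.1 (w s) x y : ℝ) := by
  let Bad : V × V → (V → (Ty × Fin R → Ω)) → Prop := fun e c =>
    G.Adj e.1 e.2 ∧
      (∑ s : Ty × Fin R, (X s.1 (fun v => c v s) e.1 e.2 : ℝ)) < (1 - η) * (R * μ)
  let S : V × V → Finset V := fun e => if G.Adj e.1 e.2 then bl G ρ e.1 else ∅
  have hmemS : ∀ e z, z ∈ S e ↔ G.Adj e.1 e.2 ∧ z ∈ bl G ρ e.1 := by
    intro e z
    simp only [S]
    split_ifs with h
    · exact ⟨fun hz => ⟨h, hz⟩, fun hz => hz.2⟩
    · exact ⟨fun hz => absurd hz (notMem_empty _), fun hz => absurd hz.1 h⟩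
  obtain ⟨c, hc⟩ := MP433A.lll (I := V) (Om := fun _ => (Ty × Fin R → Ω)) Bad S
    (by
      rintro ⟨x, y⟩ c c' h ⟨hxy, hb⟩
      refine ⟨hxy, ?_⟩
      simp only at hxy hb ⊢
      have hsame : ∀ s : Ty × Fin R, X s.1 (fun v => c' v s) x y = X s.1 (fun v => c v s) x y := by
        intro s
        refine hloc s.1 _ _ x y hxy fun u hu => ?_
        rw [h u ((hmemS _ _).2 ⟨hxy, hu⟩)]
      simp only [hsame]
      exact hb)
    (Real.exp (-(η ^ 2 * (R * μ) / (2 * q)))) (Real.exp_pos _).le
    (by
      rintro ⟨x, y⟩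
      by_cases hxy : G.Adj x y
      · have h1 := lowtail (S := Ty × Fin R) (Ω := V → Ω) (fun s a => X s.1 a x y) q hq
          (fun s a => hX _ _ _ _) (R * μ) η h0 (by positivity)
          (by
            have h2 : ∑ s : Ty × Fin R, ∑ a : V → Ω, (X s.1 a x y : ℝ) =
                R * ∑ t, ∑ a : V → Ω, (X t a x y : ℝ) := by
              rw [Fintype.sum_prod_type]
              simp only [sum_const, card_univ, Fintype.card_fin, nsmul_eq_mul]
              rw [mul_sum]
            rw [h2, mul_assoc]
            exact mul_le_mul_of_nonneg_left (hm x y hxy) (Nat.cast_nonneg _))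
        have hcard : Fintype.card (V → (Ty × Fin R → Ω)) =
            Fintype.card ((Ty × Fin R) → (V → Ω)) :=
          Fintype.card_congr (Equiv.piComm fun (_ : V) (_ : Ty × Fin R) => Ω)
        rw [hcard]
        refine le_trans (Nat.cast_le.2
          (card_le_card_of_injOn (fun c s v => c v s) ?_ ?_)) h1
        · intro c hc
          rw [mem_coe, mem_filter] at hc ⊢
          exact ⟨mem_univ _, hc.2.2⟩
        · intro c _ c' _ h
          funext v s
          exact congrFun (congrFun h s) v
      · have h1 : (univ.filter (Bad (x, y))) = ∅ := by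
          rw [filter_eq_empty_iff]
          intro c _ hb
          exact hxy hb.1
        rw [h1, card_empty, Nat.cast_zero]
        positivity)
    ((D + 1) ^ (2 * ρ + 1)) (Nat.one_le_pow _ _ (Nat.succ_pos D))
    (by
      rintro ⟨x, y⟩
      by_cases hxy : G.Adj x y
      · have hsub : (univ.filter fun e' => ¬ Disjoint (S (x, y)) (S e')) ⊆
            (bl G (2 * ρ) x).biUnion fun x' =>
              (univ.filter fun u => G.Adj x' u).image fun y' => (x', y') := by
          rintro ⟨x', y'⟩ hk
          rw [mem_filter] at hk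
          obtain ⟨z, hz, hz'⟩ := not_disjoint_iff.1 hk.2
          rw [hmemS] at hz hz'
          simp only at hz hz'
          rw [mem_biUnion]
          refine ⟨x', ?_, mem_image.2 ⟨y', mem_filter.2 ⟨mem_univ _, hz'.1⟩, rfl⟩⟩
          rw [two_mul]
          exact bl_trans G hz.2 (bl_symm G hz'.2)
        refine (card_le_card hsub).trans ?_
        refine (card_biUnion_le_card_mul _ _ (D + 1) fun x' _ => ?_).trans ?_
        · refine (card_image_le (s := univ.filter fun u => G.Adj x' u)
            (f := fun y' => (x', y'))).trans ?_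
          exact (hD x').trans (Nat.le_succ D)
        · rw [pow_succ]
          exact Nat.mul_le_mul_right _ (card_bl_le G D hD _ x)
      · have h1 : (univ.filter fun e' => ¬ Disjoint (S (x, y)) (S e')) = ∅ := by
          rw [filter_eq_empty_iff]
          intro e' _ hd
          apply hd
          simp only [S]
          rw [if_neg hxy]
          exact disjoint_empty_left _
        rw [h1, card_empty]
        exact Nat.zero_le _)
    hC
  refine ⟨fun s v => c v s, fun x y hxy => ?_⟩
  by_contra hcon
  push Not at hcon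
  exact hc (x, y) ⟨hxy, hcon⟩

end

end SI
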