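import Pool.Agent.Work.MP_433a35_co.SI.Local

set_option autoImplicit false
set_option linter.unusedSectionVars false

/-! Module CONF: Claim 1 (deterministic): the process gives a scheme with `B = (q + k + 1) D`. -/

namespace SI

open Finset Classical

noncomputable section

variable {V : Type} [Fintype V]

/-- The source of a hit edge is chosen. -/
lemma hit_chosen {G : SimpleGraph V} {r : ℕ → Set V} {i : ℕ} {x y : V}
    (h : hit G r i x y) : x ∈ chs G (al G r i) (r i) := by
  obtain ⟨hxy, hx, hy, hr, hz⟩ := h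
  refine ⟨hx, hr, fun u hu huA => ?_⟩
  exact hz u (Or.inl hu) hu.ne' huA

/-- The target of a hit edge is killed. -/
lemma hit_killed {G : SimpleGraph V} {r : ℕ → Set V} {i : ℕ} {x y : V}
    (h : hit G r i x y) : y ∉ al G r (i + 1) := by
  intro hy
  exact hy.2.2 x h.1.symm (hit_chosen h)

/-- The source of a hit edge is removed. -/
lemma hit_removed {G : SimpleGraph V} {r : ℕ → Set V} {i : ℕ} {x y : V}
    (h : hit G r i x y) : x ∉ al G r (i + 1) := by
  intro hx
  exact hx.2.1 (hit_chosen h)

/-- Neighbours of the source of a hit edge are removed. -/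
lemma hit_nbr {G : SimpleGraph V} {r : ℕ → Set V} {i : ℕ} {x y z : V}
    (h : hit G r i x y) (hz : G.Adj x z) : z ∉ al G r (i + 1) := by
  intro hz'
  exact hz'.2.2 x hz.symm (hit_chosen h)

/-- If `v` is alive at `i` and not alive after round `i' ≤ i`, then `i' = i`. -/
lemma round_eq {G : SimpleGraph V} {r : ℕ → Set V} {i i' : ℕ} {v : V} (h : v ∈ al G r i)
    (h' : v ∉ al G r (i' + 1)) (hi : i' ≤ i) : i' = i := by
  by_contra hne
  exact h' (al_anti G r (show i' + 1 ≤ i by omega) h)

/-- Two hit edges with the same target have the same round and the same source. -/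
lemma hit_unique {G : SimpleGraph V} {r : ℕ → Set V} {i i' : ℕ} {x x' y : V}
    (h : hit G r i x y) (h' : hit G r i' x' y) : i = i' ∧ x = x' := by
  have hi : i = i' := by
    rcases le_total i i' with h1 | h1
    · exact round_eq h'.2.2.1 (hit_killed h) h1
    · exact (round_eq h.2.2.1 (hit_killed h') h1).symm
  subst hi
  refine ⟨rfl, ?_⟩
  by_contra hne
  exact h.2.2.2.2 x' (Or.inr h'.1.symm) (Ne.symm hne) h'.2.1 h'.2.2.2.1

/-- An edge is not hit in both orientations. -/
lemma hit_asymm {G : SimpleGraph V} {r : ℕ → Set V} {i i' : ℕ} {x y : V}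
    (h : hit G r i x y) (h' : hit G r i' y x) : False := by
  have hi : i = i' := by
    rcases le_total i i' with h1 | h1
    · exact round_eq h'.2.1 (hit_killed h) h1
    · exact (round_eq h.2.1 (hit_killed h') h1).symm
  subst hi
  exact h.2.2.2.2 y (Or.inl h.1) h.1.ne' h'.2.1 h'.2.2.2.1

/-- Claim 1. -/
theorem conflict_mem {G : SimpleGraph V} {r : ℕ → Set V} {i i' : ℕ} {x y x' y' : V}
    (h : hit G r i x y) (h' : hit G r i' x' y') (hi : i' ≤ i)
    (hne : s(x, y) ≠ s(x', y')) (hn : near G x y x' y') :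
    y' ∈ kx G r i x ∨ (y' ∈ st G r i x ∧ i' = i ∧ x' = x) ∨ y' ∈ ky G r i x y := by
  -- if `y'` is a neighbour of `x`
  have key : G.Adj x y' → y' ∈ kx G r i x ∨ (y' ∈ st G r i x ∧ i' = i ∧ x' = x) := by
    intro hxy'
    by_cases hy' : y' ∈ al G r i
    · right
      have e := round_eq hy' (hit_killed h') hi
      subst e
      refine ⟨by simp [st, hxy', hy'], rfl, ?_⟩
      by_contra hc
      exact h'.2.2.2.2 x (Or.inr hxy'.symm) (Ne.symm hc) h.2.1 h.2.2.2.1
    · left
      simp [kx, hxy', hy']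
  -- a live ringing vertex at round `i` that is a neighbour of `x` or `y` is `x`
  have ring : ∀ z, (G.Adj x z ∨ G.Adj y z) → z ∈ al G r i → z ∈ r i → z = x := by
    intro z hz hzA hzr
    by_contra hc
    exact h.2.2.2.2 z hz hc hzA hzr
  have hxx : x = x' → y' ∈ kx G r i x ∨ (y' ∈ st G r i x ∧ i' = i ∧ x' = x) := by
    intro e
    apply key
    rw [e]
    exact h'.1
  have hassoc : (y' ∈ kx G r i x ∨ (y' ∈ st G r i x ∧ i' = i ∧ x' = x)) →
      y' ∈ kx G r i x ∨ (y' ∈ st G r i x ∧ i' = i ∧ x' = x) ∨ y' ∈ ky G r i x y := by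
    rintro (h1 | h1)
    · exact Or.inl h1
    · exact Or.inr (Or.inl h1)
  -- `x = y'` is impossible
  have hxy'ne : x ≠ y' := by
    intro e
    subst e
    have e2 := round_eq h.2.1 (hit_killed h') hi
    subst e2
    exact h.2.2.2.2 x' (Or.inl h'.1.symm) h'.1.ne h'.2.1 h'.2.2.2.1
  rcases hn with e | e | e | e | hadj | hadj | hadj | hadj
  · exact hassoc (hxx e)
  · exact absurd e hxy'ne
  · -- y = x'
    exfalso
    subst e
    have e2 := round_eq h.2.2.1 (hit_removed h') hi
    subst e2
    exact h.2.2.2.2 y (Or.inl h.1) h.1.ne' h'.2.1 h'.2.2.2.1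
  · -- y = y'
    exfalso
    subst e
    obtain ⟨_, e2⟩ := hit_unique h h'
    exact hne (by rw [e2])
  · -- x ~ x'
    exfalso
    have e2 := round_eq h.2.1 (hit_nbr h' hadj.symm) hi
    subst e2
    exact hadj.ne' (ring x' (Or.inl hadj) h'.2.1 h'.2.2.2.1)
  · exact hassoc (key hadj)
  · -- y ~ x'
    have e2 := round_eq h.2.2.1 (hit_nbr h' hadj.symm) hi
    subst e2
    exact hassoc (hxx (ring x' (Or.inr hadj) h'.2.1 h'.2.2.2.1).symm)
  · -- y ~ y'
    by_cases hxy' : G.Adj x y'
    · exact hassoc (key hxy')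
    · right; right
      have : y' ∉ al G r (i + 1) := fun hc =>
        hit_killed h' (al_anti G r (show i' + 1 ≤ i + 1 by omega) hc)
      simp [ky, hadj, hxy', Ne.symm hxy'ne, this]

/-- The number of levels of a hit edge. -/
lemma lv_hit {G : SimpleGraph V} {r : ℕ → Set V} {M D q k i : ℕ} {x y : V} (hi : i < M)
    (h : hit G r i x y) : lv G r M D q k x y = ((range q).filter fun l =>
      l * (st G r i x).card + q * ((kx G r i x).card + (ky G r i x y).card) <
        (q + k) * D).card := by
  unfold lv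
  congr 1
  apply filter_congr
  intro l _
  constructor
  · rintro ⟨j, hj, hh, hl⟩
    obtain ⟨e, _⟩ := hit_unique h hh
    subst e
    exact hl
  · intro hl
    exact ⟨i, hi, h, hl⟩

lemma lv_ne_zero {G : SimpleGraph V} {r : ℕ → Set V} {M D q k : ℕ} {x y : V}
    (h : lv G r M D q k x y ≠ 0) : ∃ i, i < M ∧ hit G r i x y := by
  rw [lv, Ne, card_eq_zero, ← Ne, ← nonempty_iff_ne_empty] at h
  obtain ⟨l, hl⟩ := h
  obtain ⟨i, hi, ha⟩ := (mem_filter.1 hl).2
  exact ⟨i, hi, ha.1⟩

lemma lv_le {G : SimpleGraph V} {r : ℕ → Set V} {M D q k : ℕ} {x y : V} :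
    lv G r M D q k x y ≤ q := by
  unfold lv
  exact (card_filter_le _ _).trans (by rw [card_range])

/-- A down-closed set of levels of size `t ≥ 1` contains the level `t - 1`. -/
lemma down_closed (q : ℕ) (P : ℕ → Prop) (hP : ∀ a b, a ≤ b → P b → P a)
    (h : ((range q).filter P).card ≠ 0) : P (((range q).filter P).card - 1) := by
  by_contra hc
  have h1 : (range q).filter P ⊆ range (((range q).filter P).card - 1) := by
    intro l hl
    rw [mem_range]
    by_contra hl'
    exact hc (hP _ l (by omega) (mem_filter.1 hl).2)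
  have h2 := card_le_card h1
  rw [card_range] at h2
  omega

/-- The rank. -/
def rkf (G : SimpleGraph V) (r : ℕ → Set V) (M D q k : ℕ) (x y : V) : ℕ :=
  if h : ∃ i, i < M ∧ hit G r i x y then h.choose * (q + 1) + lv G r M D q k x y else 0

lemma rkf_eq {G : SimpleGraph V} {r : ℕ → Set V} {M D q k i : ℕ} {x y : V} (hi : i < M)
    (h : hit G r i x y) : rkf G r M D q k x y = i * (q + 1) + lv G r M D q k x y := by
  have hex : ∃ i, i < M ∧ hit G r i x y := ⟨i, hi, h⟩
  unfold rkf
  rw [dif_pos hex]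
  obtain ⟨e, _⟩ := hit_unique hex.choose_spec.2 h
  rw [e]

/-- The targets. -/
def Tgf (G : SimpleGraph V) (r : ℕ → Set V) (M D q k : ℕ) (x y : V) : Finset V :=
  univ.filter fun z => ∃ i, i < M ∧ hit G r i x y ∧
    (z ∈ kx G r i x ∨ (z ∈ st G r i x ∧ lv G r M D q k x z ≤ lv G r M D q k x y) ∨
      z ∈ ky G r i x y)

lemma mem_Tgf {G : SimpleGraph V} {r : ℕ → Set V} {M D q k i : ℕ} {x y z : V} (hi : i < M)
    (h : hit G r i x y) : z ∈ Tgf G r M D q k x y ↔
      (z ∈ kx G r i x ∨ (z ∈ st G r i x ∧ lv G r M D q k x z ≤ lv G r M D q k x y) ∨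
        z ∈ ky G r i x y) := by
  unfold Tgf
  rw [mem_filter]
  constructor
  · rintro ⟨_, j, hj, hh, hl⟩
    obtain ⟨e, _⟩ := hit_unique h hh
    subst e
    exact hl
  · intro hl
    exact ⟨mem_univ _, i, hi, h, hl⟩

lemma sum_lv_le {G : SimpleGraph V} {r : ℕ → Set V} {M D q k : ℕ} (z : V) :
    ∑ x', lv G r M D q k x' z ≤ q := by
  by_cases hex : ∃ x', lv G r M D q k x' z ≠ 0
  · obtain ⟨x', hx'⟩ := hex
    rw [sum_eq_single x']
    · exact lv_le
    · intro b _ hb
      by_contra hc
      obtain ⟨i, _, h1⟩ := lv_ne_zero hx'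
      obtain ⟨j, _, h2⟩ := lv_ne_zero hc
      exact hb (hit_unique h1 h2).2.symm
    · intro h
      exact absurd (mem_univ _) h
  · push Not at hex
    rw [sum_eq_zero fun x _ => hex x]
    exact Nat.zero_le _

lemma sum_union_le' (A B : Finset V) (f : V → ℕ) :
    ∑ z ∈ A ∪ B, f z ≤ ∑ z ∈ A, f z + ∑ z ∈ B, f z := by
  have := sum_union_inter (s₁ := A) (s₂ := B) (f := f)
  omega

/-- The scheme of the process. -/
theorem scheme (G : SimpleGraph V) (r : ℕ → Set V) (M D q k : ℕ)
    (hD : ∀ v, (univ.filter fun u => G.Adj v u).card ≤ D) :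
    ∃ S : Scheme G ((q + k + 1) * D), S.lv = lv G r M D q k := by
  refine ⟨{ lv := lv G r M D q k, rk := rkf G r M D q k, Tg := Tgf G r M D q k,
            adj := ?_, uniq := ?_, asym := ?_, self := ?_, conf := ?_, bound := ?_,
            loc := ?_ }, rfl⟩
  · intro x y h
    obtain ⟨i, _, hh⟩ := lv_ne_zero h
    exact hh.1
  · intro x x' y h h'
    obtain ⟨i, _, h1⟩ := lv_ne_zero h
    obtain ⟨j, _, h2⟩ := lv_ne_zero h'
    exact (hit_unique h1 h2).2
  · intro x y h
    by_contra hc
    obtain ⟨i, _, h1⟩ := lv_ne_zero h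
    obtain ⟨j, _, h2⟩ := lv_ne_zero hc
    exact hit_asymm h1 h2
  · intro x y h
    obtain ⟨i, hi, h1⟩ := lv_ne_zero h
    rw [mem_Tgf hi h1]
    refine Or.inr (Or.inl ⟨?_, le_rfl⟩)
    simp [st, h1.1, h1.2.2.1]
  · intro x y x' y' h h' hne hn hrk
    obtain ⟨i, hi, h1⟩ := lv_ne_zero h
    obtain ⟨i', hi', h2⟩ := lv_ne_zero h'
    rw [rkf_eq hi h1, rkf_eq hi' h2] at hrk
    have hii : i' ≤ i := by
      by_contra hc
      have h3 : (i + 1) * (q + 1) ≤ i' * (q + 1) := Nat.mul_le_mul_right _ (by omega)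
      have h4 := @lv_le V _ G r M D q k x y
      have h5 : (i + 1) * (q + 1) = i * (q + 1) + (q + 1) := by ring
      omega
    rw [mem_Tgf hi h1]
    rcases conflict_mem h1 h2 hii hne hn with h3 | ⟨h3, h4, h5⟩ | h3
    · exact Or.inl h3
    · refine Or.inr (Or.inl ⟨h3, ?_⟩)
      subst h4 h5
      omega
    · exact Or.inr (Or.inr h3)
  · intro x y h
    obtain ⟨i, hi, h1⟩ := lv_ne_zero h
    -- the star
    have hstar : ∀ z ∈ st G r i x, ∑ x', lv G r M D q k x' z = lv G r M D q k x z := by
      intro z hz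
      rw [sum_eq_single x]
      · intro b _ hb
        by_contra hc
        obtain ⟨j, _, h2⟩ := lv_ne_zero hc
        have hz' := (mem_filter.1 hz).2
        have hzk := hit_nbr h1 hz'.1
        have e : j = i := by
          rcases le_total j i with h3 | h3
          · exact round_eq hz'.2 (hit_killed h2) h3
          · exact (round_eq h2.2.2.1 hzk h3).symm
        subst e
        exact h2.2.2.2.2 x (Or.inr hz'.1.symm) (Ne.symm hb) h1.2.1 h1.2.2.2.1
      · intro hx
        exact absurd (mem_univ _) hx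
    have hsub : Tgf G r M D q k x y ⊆ (kx G r i x ∪ ky G r i x y) ∪
        (st G r i x).filter fun z => lv G r M D q k x z ≤ lv G r M D q k x y := by
      intro z hz
      rw [mem_Tgf hi h1] at hz
      rw [mem_union, mem_union, mem_filter]
      tauto
    have h2 : ∑ z ∈ Tgf G r M D q k x y, ∑ x', lv G r M D q k x' z ≤
        (kx G r i x ∪ ky G r i x y).card * q +
          ((st G r i x).filter fun z => lv G r M D q k x z ≤ lv G r M D q k x y).card *
            lv G r M D q k x y := by
      refine (sum_le_sum_of_subset hsub).trans ?_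
      refine (sum_union_le' _ _ _).trans ?_
      apply Nat.add_le_add
      · rw [← smul_eq_mul, ← sum_const]
        exact sum_le_sum fun z _ => sum_lv_le z
      · rw [← smul_eq_mul, ← sum_const]
        refine sum_le_sum fun z hz => ?_
        rw [hstar z (mem_filter.1 hz).1]
        exact (mem_filter.1 hz).2
    refine h2.trans ?_
    have h3 : (kx G r i x ∪ ky G r i x y).card ≤ (kx G r i x).card + (ky G r i x y).card :=
      card_union_le _ _
    have h4 : ((st G r i x).filter fun z => lv G r M D q k x z ≤ lv G r M D q k x y).card ≤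
        (st G r i x).card := card_filter_le _ _
    have h5 : (st G r i x).card ≤ D := by
      refine (card_le_card ?_).trans (hD x)
      intro z hz
      exact mem_filter.2 ⟨mem_univ _, (mem_filter.1 hz).2.1⟩
    have h6 : (lv G r M D q k x y - 1) * (st G r i x).card +
        q * ((kx G r i x).card + (ky G r i x y).card) < (q + k) * D := by
      have h7 := h
      rw [lv_hit hi h1] at h7 ⊢
      have h8 := down_closed q (fun l => l * (st G r i x).card +
        q * ((kx G r i x).card + (ky G r i x y).card) < (q + k) * D)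
        (fun a b hab hb => lt_of_le_of_lt
          (Nat.add_le_add_right (Nat.mul_le_mul_right _ hab) _) hb) (by convert h7)
      convert h8
    obtain ⟨t, ht⟩ : ∃ t, lv G r M D q k x y = t + 1 := Nat.exists_eq_succ_of_ne_zero h
    rw [ht] at h4 h6 ⊢
    rw [Nat.add_sub_cancel] at h6
    calc (kx G r i x ∪ ky G r i x y).card * q +
          ((st G r i x).filter fun z => lv G r M D q k x z ≤ t + 1).card * (t + 1)
        ≤ ((kx G r i x).card + (ky G r i x y).card) * q + (st G r i x).card * (t + 1) :=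
          Nat.add_le_add (Nat.mul_le_mul_right _ h3) (Nat.mul_le_mul_right _ h4)
      _ = (t * (st G r i x).card + q * ((kx G r i x).card + (ky G r i x y).card)) +
            (st G r i x).card := by ring
      _ ≤ (q + k) * D + D := Nat.add_le_add h6.le h5
      _ = (q + k + 1) * D := by ring
  · intro x y z hz
    unfold Tgf at hz
    obtain ⟨i, hi, hh, hz⟩ := (mem_filter.1 hz).2
    have hx2 : ∀ w, G.Adj x w → w ∈ bl G 2 x := fun w hw =>
      bl_mono G (show 1 ≤ 2 by norm_num) x (bl_of_adj G hw (mem_bl_self G 0 w))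
    rcases hz with hz | hz | hz
    · exact hx2 z (mem_filter.1 hz).2.1
    · exact hx2 z (mem_filter.1 hz.1).2.1
    · have h1 := (mem_filter.1 hz).2.1
      exact bl_of_adj G hh.1 (bl_of_adj G h1 (mem_bl_self G 0 z))

end

end SI
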