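import Mathlib

set_option autoImplicit false
set_option linter.unusedSectionVars false

/-!
# Strong edge colourings with (4/3 + ε) Δ² colours: definitions (MP_433a35_co)

Random greedy maximal independent set in rounds.  `r i` is the set of the vertices that ring in
round `i`, `al G r i` the set of the vertices that are alive at the beginning of round `i`, `chs`
the vertices chosen in the round.
-/

namespace SI

open Finset Classical

noncomputable section

variable {V : Type} [Fintype V]

/-- The vertices chosen from the live set `A` when the set `ρ` rings. -/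
def chs (G : SimpleGraph V) (A ρ : Set V) : Set V :=
  {v | v ∈ A ∧ v ∈ ρ ∧ ∀ u, G.Adj v u → u ∈ A → u ∉ ρ}

/-- The next live set: chosen vertices and their neighbours are removed. -/
def nxt (G : SimpleGraph V) (A ρ : Set V) : Set V :=
  {v | v ∈ A ∧ v ∉ chs G A ρ ∧ ∀ u, G.Adj v u → u ∉ chs G A ρ}

/-- The live set at the beginning of round `i`. -/
def al (G : SimpleGraph V) (r : ℕ → Set V) : ℕ → Set V
  | 0 => Set.univ
  | i + 1 => nxt G (al G r i) (r i)

/-- The oriented edge `(x, y)` is hit in round `i`: `x` and `y` are alive, `x` rings, no other live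
vertex of `N(x) ∪ N(y)` rings. -/
def hit (G : SimpleGraph V) (r : ℕ → Set V) (i : ℕ) (x y : V) : Prop :=
  G.Adj x y ∧ x ∈ al G r i ∧ y ∈ al G r i ∧ x ∈ r i ∧
    ∀ z, (G.Adj x z ∨ G.Adj y z) → z ≠ x → z ∈ al G r i → z ∉ r i

/-- The star of `x` in round `i`: its live neighbours. -/
def st (G : SimpleGraph V) (r : ℕ → Set V) (i : ℕ) (x : V) : Finset V :=
  univ.filter fun z => G.Adj x z ∧ z ∈ al G r i

/-- The neighbours of `x` that are not alive in round `i`. -/
def kx (G : SimpleGraph V) (r : ℕ → Set V) (i : ℕ) (x : V) : Finset V :=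
  univ.filter fun z => G.Adj x z ∧ z ∉ al G r i

/-- The neighbours `z` of `y`, not neighbours of `x`, `z ≠ x`, that are not alive after
round `i`. -/
def ky (G : SimpleGraph V) (r : ℕ → Set V) (i : ℕ) (x y : V) : Finset V :=
  univ.filter fun z => G.Adj y z ∧ ¬ G.Adj x z ∧ z ≠ x ∧ z ∉ al G r (i + 1)

/-- The oriented edge `(x, y)` is accepted in round `i` at level `l` with threshold `k`. -/
def accAt (G : SimpleGraph V) (r : ℕ → Set V) (D q k i l : ℕ) (x y : V) : Prop :=
  hit G r i x y ∧
    l * (st G r i x).card + q * ((kx G r i x).card + (ky G r i x y).card) < (q + k) * D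

/-- The number of the levels `l < q` at which the oriented edge `(x, y)` is accepted in one of the
first `M` rounds. -/
def lv (G : SimpleGraph V) (r : ℕ → Set V) (M D q k : ℕ) (x y : V) : ℕ :=
  ((range q).filter fun l => ∃ i, i < M ∧ accAt G r D q k i l x y).card

/-- Two edges `xy`, `x'y'` share a vertex or are joined by an edge. -/
def near (G : SimpleGraph V) (x y x' y' : V) : Prop :=
  x = x' ∨ x = y' ∨ y = x' ∨ y = y' ∨ G.Adj x x' ∨ G.Adj x y' ∨ G.Adj y x' ∨ G.Adj y y'

/-- The ring sets of the coins `c`: `v` rings in round `i < M` iff its coin shows `0`. -/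
def rg {M N : ℕ} (c : V → Fin M → Fin N) (i : ℕ) : Set V :=
  {v | ∃ h : i < M, (c v ⟨i, h⟩ : ℕ) = 0}

/-- Balls. -/
def bl (G : SimpleGraph V) : ℕ → V → Finset V
  | 0, v => {v}
  | n + 1, v => bl G n v ∪ (bl G n v).biUnion fun u => univ.filter fun z => G.Adj u z

/-- The combinatorics of one stage: levels `lv x y` of the oriented edges (`0` = not in the stage),
a rank, and for every edge a set of targets that contains the targets of all edges of the stage
that are near and of smaller or equal rank. -/
structure Scheme (G : SimpleGraph V) (B : ℕ) where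
  lv : V → V → ℕ
  rk : V → V → ℕ
  Tg : V → V → Finset V
  adj : ∀ x y, lv x y ≠ 0 → G.Adj x y
  uniq : ∀ x x' y, lv x y ≠ 0 → lv x' y ≠ 0 → x = x'
  asym : ∀ x y, lv x y ≠ 0 → lv y x = 0
  self : ∀ x y, lv x y ≠ 0 → y ∈ Tg x y
  conf : ∀ x y x' y', lv x y ≠ 0 → lv x' y' ≠ 0 → s(x, y) ≠ s(x', y') → near G x y x' y' →
    rk x' y' ≤ rk x y → y' ∈ Tg x y
  bound : ∀ x y, lv x y ≠ 0 → ∑ y' ∈ Tg x y, ∑ x', lv x' y' ≤ B
  loc : ∀ x y, Tg x y ⊆ bl G 2 x

lemma al_succ (G : SimpleGraph V) (r : ℕ → Set V) (i : ℕ) :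
    al G r (i + 1) = nxt G (al G r i) (r i) := rfl

lemma al_zero (G : SimpleGraph V) (r : ℕ → Set V) : al G r 0 = Set.univ := rfl

lemma al_anti (G : SimpleGraph V) (r : ℕ → Set V) {i j : ℕ} (h : i ≤ j) :
    al G r j ⊆ al G r i := by
  induction j, h using Nat.le_induction with
  | base => exact subset_rfl
  | succ j _ ih => exact fun v hv => ih hv.1

end

end SI
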