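import Mathlib

set_option autoImplicit false
set_option linter.unusedSectionVars false

/-! Module FIB: counting the coins on a box, and averaging over fibres. -/

namespace SI

open Finset Classical

noncomputable section

variable {V : Type} [Fintype V]

/-- The number of the functions of a product set. -/
lemma card_prod (M N : ℕ) (S : V → Fin M → Finset (Fin N)) :
    ((univ.filter fun c : V → Fin M → Fin N => ∀ v j, c v j ∈ S v j).card : ℝ) =
      ∏ v, ∏ j, ((S v j).card : ℝ) := by
  have h : (univ.filter fun c : V → Fin M → Fin N => ∀ v j, c v j ∈ S v j) =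
      Fintype.piFinset fun v => Fintype.piFinset fun j => S v j := by
    ext c
    simp [Fintype.mem_piFinset]
  rw [h, Fintype.card_piFinset]
  push_cast
  refine Finset.prod_congr rfl fun v _ => ?_
  rw [Fintype.card_piFinset]
  push_cast
  rfl

/-- The number of the coins that agree with `c0` outside `W`. -/
lemma card_fib (M N : ℕ) (W : Finset V) (c0 : V → Fin M → Fin N) :
    ((univ.filter fun c : V → Fin M → Fin N => ∀ v, v ∉ W → c0 v = c v).card : ℝ) =
      (N : ℝ) ^ (M * W.card) := by
  have h : (univ.filter fun c : V → Fin M → Fin N => ∀ v, v ∉ W → c0 v = c v) =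
      (univ.filter fun c : V → Fin M → Fin N => ∀ v j, c v j ∈
        (if v ∈ W then (univ : Finset (Fin N)) else {c0 v j})) := by
    ext c
    simp only [mem_filter, mem_univ, true_and]
    constructor
    · intro h v j
      by_cases hv : v ∈ W
      · simp [hv]
      · simp [hv, h v hv]
    · intro h v hv
      funext j
      have := h v j
      simp only [hv, if_false, mem_singleton] at this
      exact this.symm
  rw [h, card_prod]
  have h2 : ∀ v : V, ∏ j : Fin M,
      (((if v ∈ W then (univ : Finset (Fin N)) else {c0 v j}).card : ℕ) : ℝ) =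
      if v ∈ W then (N : ℝ) ^ M else 1 := by
    intro v
    by_cases hv : v ∈ W
    · simp [hv]
    · simp [hv]
  rw [Finset.prod_congr rfl fun v _ => h2 v, Finset.prod_ite_mem, Finset.univ_inter,
    Finset.prod_const, ← pow_mul]

/-- The number of coins that agree with `c0` outside `W`, for which no vertex of `Z j` rings in
round `j < i`, and in round `i` exactly the vertex `x` of `Z i` rings. -/
theorem fib_count (M N : ℕ) (hN : 1 ≤ N) (W : Finset V) (Z : ℕ → Finset V) (hZ : ∀ j, Z j ⊆ W)
    (c0 : V → Fin M → Fin N) (i : ℕ) (hi : i < M) (x : V) (hx : x ∈ Z i) :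
    ((univ.filter fun c : V → Fin M → Fin N =>
        (∀ v, v ∉ W → c v = c0 v) ∧
        (∀ j (hj : j < M), j < i → ∀ z ∈ Z j, (c z ⟨j, hj⟩ : ℕ) ≠ 0) ∧
        (c x ⟨i, hi⟩ : ℕ) = 0 ∧
        (∀ z ∈ Z i, z ≠ x → (c z ⟨i, hi⟩ : ℕ) ≠ 0)).card : ℝ) =
      (N : ℝ) ^ (M * W.card) * ((1 / N : ℝ) *
        (1 - 1 / N : ℝ) ^ ((∑ j ∈ range (i + 1), (Z j).card) - 1)) := by
  have hN0 : (0 : ℝ) < N := by exact_mod_cast hN
  set z0 : Fin N := ⟨0, hN⟩ with hz0
  -- the product set
  set S : V → Fin M → Finset (Fin N) := fun v j =>
    if v ∈ W then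
      (if (j : ℕ) < i then (if v ∈ Z j then univ.erase z0 else univ)
      else if (j : ℕ) = i then
        (if v = x then {z0} else if v ∈ Z j then univ.erase z0 else univ)
      else univ)
    else {c0 v j} with hS
  have h : (univ.filter fun c : V → Fin M → Fin N =>
        (∀ v, v ∉ W → c v = c0 v) ∧
        (∀ j (hj : j < M), j < i → ∀ z ∈ Z j, (c z ⟨j, hj⟩ : ℕ) ≠ 0) ∧
        (c x ⟨i, hi⟩ : ℕ) = 0 ∧
        (∀ z ∈ Z i, z ≠ x → (c z ⟨i, hi⟩ : ℕ) ≠ 0)) =
      (univ.filter fun c : V → Fin M → Fin N => ∀ v j, c v j ∈ S v j) := by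
    ext c
    simp only [mem_filter, mem_univ, true_and]
    have hxW : x ∈ W := hZ i hx
    have hne : ∀ a : Fin N, (a : ℕ) ≠ 0 ↔ a ≠ z0 := by
      intro a
      rw [hz0, ne_eq, ne_eq, Fin.ext_iff]
    have heq : ∀ a : Fin N, (a : ℕ) = 0 ↔ a = z0 := by
      intro a
      rw [hz0, Fin.ext_iff]
    constructor
    · rintro ⟨h1, h2, h3, h4⟩ v j
      simp only [hS]
      by_cases hv : v ∈ W
      · simp only [hv, if_true]
        by_cases hj : (j : ℕ) < i
        · simp only [hj, if_true]
          by_cases hvZ : v ∈ Z j
          · simp only [hvZ, if_true, mem_erase, mem_univ, and_true]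
            exact (hne _).mp (h2 j j.2 hj v hvZ)
          · simp [hvZ]
        · by_cases hj' : (j : ℕ) = i
          · have hjj : j = ⟨i, hi⟩ := Fin.ext hj'
            simp only [hj', lt_irrefl, if_false, if_true]
            by_cases hvx : v = x
            · subst hvx
              simp only [if_true, mem_singleton]
              rw [hjj]
              exact (heq _).mp h3
            · by_cases hvZ : v ∈ Z i
              · simp only [hvx, hvZ, if_true, if_false, mem_erase, mem_univ, and_true]
                rw [hjj]
                exact (hne _).mp (h4 v hvZ hvx)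
              · simp [hvx, hvZ]
          · simp [hj, hj']
      · simp only [hv, if_false, mem_singleton]
        rw [h1 v hv]
    · intro h
      refine ⟨?_, ?_, ?_, ?_⟩
      · intro v hv
        funext j
        have := h v j
        simp only [hS, hv, if_false, mem_singleton] at this
        exact this
      · intro j hj hji z hz
        have := h z ⟨j, hj⟩
        simp only [hS, hZ j hz, hji, hz, if_true, mem_erase, mem_univ, and_true] at this
        exact (hne _).mpr this
      · have := h x ⟨i, hi⟩
        simp only [hS, hxW, lt_irrefl, if_true, if_false, mem_singleton] at this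
        exact (heq _).mpr this
      · intro z hz hzx
        have := h z ⟨i, hi⟩
        simp only [hS, hZ i hz, hz, hzx, lt_irrefl, if_true, if_false, mem_erase, mem_univ,
          and_true] at this
        exact (hne _).mpr this
  rw [h, card_prod]
  -- cardinalities
  set q : ℝ := 1 - 1 / N with hq
  have hcard : ∀ v (j : Fin M), ((S v j).card : ℝ) =
      (if v ∈ W then (N : ℝ) else 1) *
      ((if v ∈ (if (j : ℕ) < i then Z j else if (j : ℕ) = i then (Z i).erase x else ∅) then q
        else 1) * (if (j : ℕ) = i ∧ v = x then 1 / (N : ℝ) else 1)) := by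
    intro v j
    have hxW : x ∈ W := hZ i hx
    have he : ((univ.erase z0 : Finset (Fin N)).card : ℝ) = N * q := by
      rw [card_erase_of_mem (mem_univ _), card_univ, Fintype.card_fin, Nat.cast_sub hN, hq]
      field_simp
      simp
    by_cases hv : v ∈ W
    · by_cases hj : (j : ℕ) < i
      · have hj' : ¬ (j : ℕ) = i := by omega
        by_cases hvZ : v ∈ Z j
        · simp only [hS, hv, hj, hvZ, if_true, hj', false_and, if_false, mul_one]
          exact he
        · simp [hS, hv, hj, hvZ, hj']
      · by_cases hj' : (j : ℕ) = i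
        · by_cases hvx : v = x
          · subst hvx
            simp only [hS, hv, hj', lt_irrefl, if_true, if_false, card_singleton, mem_erase,
              ne_eq, not_true_eq_false, false_and, true_and]
            field_simp
            simp
          · by_cases hvZ : v ∈ Z i
            · simp only [hS, hv, hj', lt_irrefl, hvx, hvZ, if_true, if_false, mem_erase, ne_eq,
                not_false_eq_true, true_and, mul_one]
              exact he
            · simp [hS, hv, hj', hvx, hvZ]
        · simp [hS, hv, hj, hj']
    · have hvx : v ≠ x := fun h => hv (h ▸ hxW)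
      have hvj : ∀ k, v ∉ Z k := fun k hk => hv (hZ k hk)
      have h1 : v ∉ (if (j : ℕ) < i then Z j else if (j : ℕ) = i then (Z i).erase x else ∅) := by
        split_ifs
        · exact hvj _
        · simp [hvj]
        · simp
      simp only [hS, hv, if_false, card_singleton, h1, hvx, and_false]
      simp
  simp_rw [hcard]
  rw [Finset.prod_comm]
  simp_rw [Finset.prod_mul_distrib]
  rw [Finset.prod_const, card_univ, Fintype.card_fin]
  -- three products
  have p1 : (∏ v : V, (if v ∈ W then (N : ℝ) else 1)) ^ M = (N : ℝ) ^ (M * W.card) := by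
    rw [Finset.prod_ite_mem, Finset.univ_inter, Finset.prod_const, ← pow_mul, mul_comm]
  have p3 : (∏ j : Fin M, ∏ v : V, (if (j : ℕ) = i ∧ v = x then 1 / (N : ℝ) else 1)) =
      1 / N := by
    have : ∀ j : Fin M, (∏ v : V, (if (j : ℕ) = i ∧ v = x then 1 / (N : ℝ) else 1)) =
        if j = ⟨i, hi⟩ then 1 / (N : ℝ) else 1 := by
      intro j
      by_cases hj : (j : ℕ) = i
      · have hjj : j = ⟨i, hi⟩ := Fin.ext hj
        simp [hj, hjj]
      · have hjj : j ≠ ⟨i, hi⟩ := fun h => hj (by rw [h])
        simp [hj, hjj]
    rw [Finset.prod_congr rfl fun j _ => this j, Finset.prod_ite_eq']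
    simp
  have p2 : (∏ j : Fin M, ∏ v : V,
      (if v ∈ (if (j : ℕ) < i then Z j else if (j : ℕ) = i then (Z i).erase x else ∅) then q
        else 1)) = q ^ ((∑ j ∈ range (i + 1), (Z j).card) - 1) := by
    have : ∀ j : Fin M, (∏ v : V,
        (if v ∈ (if (j : ℕ) < i then Z j else if (j : ℕ) = i then (Z i).erase x else ∅) then q
        else 1)) =
        (fun j : ℕ => q ^ (if j < i then Z j else if j = i then (Z i).erase x else ∅).card) j := by
      intro j
      rw [Finset.prod_ite_mem, Finset.univ_inter, Finset.prod_const]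
    rw [Finset.prod_congr rfl fun j _ => this j,
      Fin.prod_univ_eq_prod_range (fun j : ℕ =>
        q ^ (if j < i then Z j else if j = i then (Z i).erase x else ∅).card) M,
      Finset.prod_pow_eq_pow_sum]
    congr 1
    have hsub : range (i + 1) ⊆ range M := by
      intro j hj
      simp only [mem_range] at *
      omega
    rw [← Finset.sum_subset hsub]
    · rw [Finset.sum_range_succ, Finset.sum_range_succ]
      have h0 : ∑ j ∈ range i, (if j < i then Z j else if j = i then (Z i).erase x else ∅).card =
          ∑ j ∈ range i, (Z j).card :=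
        Finset.sum_congr rfl fun j hj => by rw [if_pos (mem_range.mp hj)]
      rw [h0]
      simp only [lt_irrefl, if_false, if_true]
      rw [card_erase_of_mem hx]
      have : 1 ≤ (Z i).card := Finset.card_pos.mpr ⟨x, hx⟩
      omega
    · intro j _ hj
      simp only [mem_range, not_lt] at hj
      have h1 : ¬ j < i := by omega
      have h2 : ¬ j = i := by omega
      simp [h1, h2]
  rw [p1, p2, p3]
  ring

/-- Averaging over the fibres: if the average of `f` over every fibre (coins that agree with `c0`
outside `W`) is at least `b`, then its average over all coins is at least `b`. -/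
theorem fib_avg (M N : ℕ) (hN : 1 ≤ N) (W : Finset V) (f : (V → Fin M → Fin N) → ℝ) (b : ℝ)
    (h : ∀ c0 : V → Fin M → Fin N, b * (N : ℝ) ^ (M * W.card) ≤
      ∑ c ∈ univ.filter (fun c : V → Fin M → Fin N => ∀ v, v ∉ W → c v = c0 v), f c) :
    b * (Fintype.card (V → Fin M → Fin N) : ℝ) ≤ ∑ c : V → Fin M → Fin N, f c := by
  have hN0 : (0 : ℝ) < N := by exact_mod_cast hN
  have hK : (0 : ℝ) < (N : ℝ) ^ (M * W.card) := by positivity
  have h1 : (Fintype.card (V → Fin M → Fin N) : ℝ) * (b * (N : ℝ) ^ (M * W.card)) ≤
      ∑ c0 : V → Fin M → Fin N,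
        ∑ c ∈ univ.filter (fun c : V → Fin M → Fin N => ∀ v, v ∉ W → c v = c0 v), f c := by
    calc (Fintype.card (V → Fin M → Fin N) : ℝ) * (b * (N : ℝ) ^ (M * W.card))
        = ∑ _c0 : V → Fin M → Fin N, b * (N : ℝ) ^ (M * W.card) := by
          rw [Finset.sum_const, card_univ, nsmul_eq_mul]
      _ ≤ _ := Finset.sum_le_sum fun c0 _ => h c0
  have h2 : ∑ c0 : V → Fin M → Fin N,
        ∑ c ∈ univ.filter (fun c : V → Fin M → Fin N => ∀ v, v ∉ W → c v = c0 v), f c =
      (∑ c : V → Fin M → Fin N, f c) * (N : ℝ) ^ (M * W.card) := by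
    simp_rw [Finset.sum_filter]
    rw [Finset.sum_comm, Finset.sum_mul]
    refine Finset.sum_congr rfl fun c _ => ?_
    rw [← Finset.sum_filter, Finset.sum_const, nsmul_eq_mul, card_fib, mul_comm]
  rw [h2] at h1
  have h3 : (b * (Fintype.card (V → Fin M → Fin N) : ℝ)) * (N : ℝ) ^ (M * W.card) ≤
      (∑ c : V → Fin M → Fin N, f c) * (N : ℝ) ^ (M * W.card) := by
    refine le_trans (le_of_eq ?_) h1
    ring
  exact le_of_mul_le_mul_right h3 hK

end

end SI
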