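import Pool.Agent.Work.MP_433a35_co.SI.Stage

set_option autoImplicit false
set_option linter.unusedSectionVars false

/-! Module GLUE: the colouring from the stages. -/

namespace SI

open Finset Classical

noncomputable section

variable {V : Type} [Fintype V]

/-- From the picks to a strong edge colouring with `∑ s, d s` colours. -/
theorem glue (G : SimpleGraph V) (St : Type) [Fintype St] (B : St → ℕ)
    (S : ∀ s, Scheme G (B s)) (d : St → ℕ) (p : Sym2 V → St)
    (h1 : ∀ x y, G.Adj x y → (S (p s(x, y))).lv x y ≠ 0 ∨ (S (p s(x, y))).lv y x ≠ 0)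
    (h2 : ∀ s x y, (S s).lv x y ≠ 0 →
      (((S s).Tg x y).filter fun y' => ∃ x', p s(x', y') = s ∧ (S s).lv x' y' ≠ 0).card ≤ d s) :
    ∃ col : Sym2 V → ℕ, (∀ a b, G.Adj a b → col s(a, b) < ∑ s, d s) ∧
      ∀ a b c e, G.Adj a b → G.Adj c e → s(a, b) ≠ s(c, e) → (b = c ∨ G.Adj b c) →
        col s(a, b) ≠ col s(c, e) := by
  have hst : ∀ s, ∃ col : V → ℕ, (∀ x y, p s(x, y) = s → (S s).lv x y ≠ 0 → col y < d s) ∧
      ∀ x y x' y', p s(x, y) = s → (S s).lv x y ≠ 0 → p s(x', y') = s → (S s).lv x' y' ≠ 0 →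
        s(x, y) ≠ s(x', y') → near G x y x' y' → col y ≠ col y' := by
    intro s
    exact stage_colour G (S s) (d s) (fun x y => p s(x, y) = s) (fun x y _ hl => h2 s x y hl)
  choose cs hc1 hc2 using hst
  -- the orientation
  have hor : ∃ ox oy : Sym2 V → V, ∀ e ∈ G.edgeSet,
      e = s(ox e, oy e) ∧ (S (p e)).lv (ox e) (oy e) ≠ 0 := by
    have : ∀ e : Sym2 V, ∃ q : V × V, e ∈ G.edgeSet →
        e = s(q.1, q.2) ∧ (S (p e)).lv q.1 q.2 ≠ 0 := by
      intro e
      induction e using Sym2.inductionOn with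
      | hf a b =>
        by_cases hab : G.Adj a b
        · rcases h1 a b hab with h | h
          · exact ⟨(a, b), fun _ => ⟨rfl, h⟩⟩
          · exact ⟨(b, a), fun _ => ⟨Sym2.eq_swap, h⟩⟩
        · exact ⟨(a, b), fun h => absurd h hab⟩
    choose q hq using this
    exact ⟨fun e => (q e).1, fun e => (q e).2, hq⟩
  obtain ⟨ox, oy, hor⟩ := hor
  obtain ⟨col, hcol1, hcol2⟩ := MP433A.combine G p d (fun s e => cs s (oy e))
    (by
      intro e he
      obtain ⟨h3, h4⟩ := hor e he
      have h5 : p s(ox e, oy e) = p e := by rw [← h3]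
      exact hc1 (p e) (ox e) (oy e) h5 h4)
    (by
      intro e he f hf hpf hne hconf
      obtain ⟨h3, h4⟩ := hor e he
      obtain ⟨h3', h4'⟩ := hor f hf
      have h5 : p s(ox e, oy e) = p e := by rw [← h3]
      have h5' : p s(ox f, oy f) = p e := by rw [← h3', hpf]
      rw [← hpf] at h4'
      refine hc2 (p e) (ox e) (oy e) (ox f) (oy f) h5 h4 h5' h4' ?_ ?_
      · rw [← h3, ← h3']
        exact hne
      · rw [h3, h3'] at hconf
        exact MP433A.conf_of G hconf)
  refine ⟨col, fun a b hab => hcol1 _ hab, fun a b c e hab hce hne hbc => ?_⟩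
  exact hcol2 _ hab _ hce hne ⟨b, c, Sym2.mem_mk_right _ _, Sym2.mem_mk_left _ _, hbc⟩

end

end SI
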