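import Mathlib

set_option autoImplicit false

/-! Module PARAMS: the choice of the parameters. -/

namespace SI

open Finset

/-- `exp (-c √D)` beats every power of `D`. -/
theorem params_decay (A c : ℝ) (hc : 0 < c) (n : ℕ) :
    ∃ K : ℕ, 1 ≤ K ∧ ∀ D : ℕ, K ≤ D → A * Real.exp (-(c * Real.sqrt D)) * ((D : ℝ) + 1) ^ n ≤ 1 := by
  obtain ⟨K, hK⟩ := exists_nat_ge
    ((|A| * 2 ^ n * ((2 * n + 1).factorial : ℝ) / c ^ (2 * n + 1)) ^ 2)
  refine ⟨K + 1, by omega, fun D hD => ?_⟩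
  have hD1 : (1 : ℝ) ≤ D := by exact_mod_cast (by omega : 1 ≤ D)
  have hDK : (K : ℝ) ≤ D := by exact_mod_cast (by omega : K ≤ D)
  set s := Real.sqrt D with hs
  have hs2 : s ^ 2 = D := Real.sq_sqrt (by linarith)
  have hs0 : 0 < s := Real.sqrt_pos.mpr (by linarith)
  have hR : |A| * 2 ^ n * ((2 * n + 1).factorial : ℝ) / c ^ (2 * n + 1) ≤ s := by
    refine Real.le_sqrt_of_sq_le (hK.trans hDK)
  have h1 : (c * s) ^ (2 * n + 1) / ((2 * n + 1).factorial : ℝ) ≤ Real.exp (c * s) :=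
    Real.pow_div_factorial_le_exp _ (by positivity) _
  have hf : (0 : ℝ) < ((2 * n + 1).factorial : ℝ) := by positivity
  have h2 : |A| * ((D : ℝ) + 1) ^ n ≤ Real.exp (c * s) := by
    refine le_trans ?_ h1
    rw [le_div_iff₀ hf]
    rw [div_le_iff₀ (by positivity)] at hR
    calc |A| * ((D : ℝ) + 1) ^ n * ((2 * n + 1).factorial : ℝ)
        ≤ |A| * (2 * s ^ 2) ^ n * ((2 * n + 1).factorial : ℝ) := by
          gcongr
          rw [hs2]; linarith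
      _ = (|A| * 2 ^ n * ((2 * n + 1).factorial : ℝ)) * s ^ (2 * n) := by
          rw [mul_pow, ← pow_mul]; ring
      _ ≤ (s * c ^ (2 * n + 1)) * s ^ (2 * n) := by gcongr
      _ = (c * s) ^ (2 * n + 1) := by ring
  calc A * Real.exp (-(c * s)) * ((D : ℝ) + 1) ^ n
      ≤ |A| * Real.exp (-(c * s)) * ((D : ℝ) + 1) ^ n := by
        gcongr
        exact le_abs_self A
    _ = (|A| * ((D : ℝ) + 1) ^ n) * Real.exp (-(c * s)) := by ring
    _ ≤ Real.exp (c * s) * Real.exp (-(c * s)) := by gcongr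
    _ = 1 := by rw [← Real.exp_add]; simp

/-- The rate function is positive. -/
theorem params_rate (η : ℝ) (h0 : 0 < η) : 0 < (1 + η) * Real.log (1 + η) - η := by
  have h1 : 0 < 1 + η := by linarith
  have h2 : Real.log (1 + η)⁻¹ < (1 + η)⁻¹ - 1 := by
    apply Real.log_lt_sub_one_of_pos (by positivity)
    intro h
    rw [inv_eq_one] at h
    linarith
  rw [Real.log_inv] at h2
  have h3 : (1 + η) * ((1 + η)⁻¹ - 1) = -η := by
    field_simp
    ring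
  nlinarith [mul_lt_mul_of_pos_left h2 h1]

/-- `q` thresholds and levels, `M` rounds, `D m` stages per type, `L` picks. -/
theorem params (η : ℝ) (h0 : 0 < η) (h1 : η ≤ 1 / 10) :
    ∃ q M K : ℕ, 1 ≤ q ∧ 1 ≤ K ∧ (1 : ℝ) ≤ η * q ∧ ∀ D : ℕ, K ≤ D → ∃ N m L : ℕ, 1 ≤ N ∧ 1 ≤ m ∧
      0 < L ∧ (L : ℝ) - 1 < (1 - η) ^ 3 * (3 * (q : ℝ) ^ 2 * m) ∧
      (1 - η) ^ 3 * (3 * (q : ℝ) ^ 2 * m) ≤ L ∧
      2 * (D : ℝ) ≤ η * N ∧ (3 * (q : ℝ) ^ 2 / D) * N ≤ η * M ∧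
      4 * Real.exp (-(η ^ 2 * ((1 - η) ^ 2 * (3 * (q : ℝ) ^ 2 * m)) / (2 * q))) *
        (((D + 1) ^ (2 * (2 * M + 3) + 1) : ℕ) : ℝ) ≤ 1 ∧
      ∀ k : ℕ, k ≤ q →
        4 * Real.exp (η * (((q + k + 1) * D : ℕ) : ℝ) / L -
          ((1 + η) * (((q + k + 1) * D : ℕ) : ℝ) / L) * Real.log (1 + η)) *
            (((D + 1) ^ 7 * (q * 3 * (D * m)) : ℕ) : ℝ) ≤ 1 := by
  obtain ⟨q, hq⟩ := exists_nat_ge (1 / η)
  rw [div_le_iff₀ h0] at hq
  have hq0 : (0 : ℝ) < q := by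
    by_contra h
    have h' := not_lt.mp h
    nlinarith
  have hq1 : 1 ≤ q := by
    rcases Nat.eq_zero_or_pos q with h | h
    · simp [h] at hq0
    · exact h
  have hq1' : (1 : ℝ) ≤ q := by exact_mod_cast hq1
  obtain ⟨M, hM⟩ := exists_nat_ge (9 * (q : ℝ) ^ 2 / η ^ 2)
  have hη1 : 0 < 1 - η := by linarith
  have ha := params_rate η h0
  set a := (1 + η) * Real.log (1 + η) - η with hadef
  obtain ⟨K1, hK1, hd1⟩ := params_decay 4 (η ^ 2 * (1 - η) ^ 2 * (3 * q) / 2) (by positivity)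
    (2 * (2 * M + 3) + 1)
  obtain ⟨K2, hK2, hd2⟩ := params_decay (4 * (3 * q)) (a / (8 * (q : ℝ) ^ 2)) (by positivity) 9
  refine ⟨q, M, K1 + K2, hq1, by omega, by linarith, fun D hD => ?_⟩
  have hD1 : (1 : ℝ) ≤ D := by exact_mod_cast (by omega : 1 ≤ D)
  have hD0 : (0 : ℝ) < D := by linarith
  set s := Real.sqrt D with hs
  have hs2 : s ^ 2 = D := Real.sq_sqrt (by linarith)
  have hs1 : 1 ≤ s := Real.one_le_sqrt.mpr hD1
  set m := ⌈s⌉₊ with hm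
  have hms : s ≤ m := Nat.le_ceil s
  have hm2 : (m : ℝ) < s + 1 := Nat.ceil_lt_add_one (by linarith)
  have hm1' : (1 : ℝ) ≤ m := hs1.trans hms
  have hm1 : 1 ≤ m := by exact_mod_cast hm1'
  set N := ⌈2 * (D : ℝ) / η⌉₊ with hN
  have hN1 : 2 * (D : ℝ) / η ≤ N := Nat.le_ceil _
  have hN2 : (N : ℝ) < 2 * (D : ℝ) / η + 1 := Nat.ceil_lt_add_one (by positivity)
  set μ := (1 - η) ^ 3 * (3 * (q : ℝ) ^ 2 * m) with hμ
  have hμ0 : 0 < μ := by positivity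
  set L := ⌈μ⌉₊ with hL
  have hL1 : μ ≤ L := Nat.le_ceil _
  have hL2 : (L : ℝ) < μ + 1 := Nat.ceil_lt_add_one hμ0.le
  have hL0 : (0 : ℝ) < L := by linarith
  refine ⟨N, m, L, ?_, hm1, by exact_mod_cast hL0, by linarith, hL1, ?_, ?_, ?_, ?_⟩
  · have : (0 : ℝ) < N := lt_of_lt_of_le (by positivity) hN1
    exact_mod_cast this
  · rw [div_le_iff₀ h0] at hN1
    linarith
  · have h2 : (N : ℝ) ≤ 3 * D / η := by
      have : (1 : ℝ) ≤ D / η := by
        rw [le_div_iff₀ h0]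
        linarith
      have h3 : 3 * (D : ℝ) / η = 2 * (D : ℝ) / η + D / η := by ring
      linarith
    calc (3 * (q : ℝ) ^ 2 / D) * N ≤ (3 * (q : ℝ) ^ 2 / D) * (3 * D / η) := by gcongr
      _ = η * (9 * (q : ℝ) ^ 2 / η ^ 2) := by field_simp; ring
      _ ≤ η * M := by gcongr
  · refine le_trans ?_ (hd1 D (by omega))
    push_cast
    gcongr 4 * Real.exp ?_ * _
    rw [neg_le_neg_iff]
    have h2 : η ^ 2 * ((1 - η) ^ 2 * (3 * (q : ℝ) ^ 2 * m)) / (2 * q) =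
        η ^ 2 * (1 - η) ^ 2 * (3 * q) / 2 * m := by
      field_simp
    rw [h2]
    gcongr
  · intro k hk
    refine le_trans ?_ (hd2 D (by omega))
    have hk0 : (0 : ℝ) ≤ k := by positivity
    have hL4 : (L : ℝ) ≤ 4 * (q : ℝ) ^ 2 * m := by
      have h3 : (1 - η) ^ 3 ≤ 1 := pow_le_one₀ hη1.le (by linarith)
      have h4 : μ ≤ 3 * (q : ℝ) ^ 2 * m := by
        rw [hμ]
        exact mul_le_of_le_one_left (by positivity) h3
      have h5 : (1 : ℝ) ≤ (q : ℝ) ^ 2 * m := by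
        have : (1 : ℝ) ≤ (q : ℝ) ^ 2 := one_le_pow₀ hq1'
        nlinarith
      linarith
    have hLs : (L : ℝ) ≤ 8 * (q : ℝ) ^ 2 * s := by
      have : (m : ℝ) ≤ 2 * s := by linarith
      calc (L : ℝ) ≤ 4 * (q : ℝ) ^ 2 * m := hL4
        _ ≤ 4 * (q : ℝ) ^ 2 * (2 * s) := by gcongr
        _ = _ := by ring
    have hexp : η * (((q + k + 1) * D : ℕ) : ℝ) / L -
          ((1 + η) * (((q + k + 1) * D : ℕ) : ℝ) / L) * Real.log (1 + η) ≤
        -(a / (8 * (q : ℝ) ^ 2) * s) := by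
      have h6 : η * (((q + k + 1) * D : ℕ) : ℝ) / L -
          ((1 + η) * (((q + k + 1) * D : ℕ) : ℝ) / L) * Real.log (1 + η) =
          -(a * ((((q + k + 1) * D : ℕ) : ℝ) / L)) := by
        rw [hadef]; ring
      rw [h6, neg_le_neg_iff, div_mul_eq_mul_div, mul_div_assoc]
      refine mul_le_mul_of_nonneg_left ?_ ha.le
      rw [div_le_div_iff₀ (by positivity) hL0]
      calc s * L ≤ s * (8 * (q : ℝ) ^ 2 * s) := by gcongr
        _ = D * (8 * (q : ℝ) ^ 2) := by rw [← hs2]; ring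
        _ ≤ (((q + k + 1) * D : ℕ) : ℝ) * (8 * (q : ℝ) ^ 2) := by
          gcongr
          push_cast
          nlinarith
    have hm3 : (m : ℝ) ≤ D + 1 := by
      have : s ≤ D := by nlinarith
      linarith
    calc 4 * Real.exp (η * (((q + k + 1) * D : ℕ) : ℝ) / L -
          ((1 + η) * (((q + k + 1) * D : ℕ) : ℝ) / L) * Real.log (1 + η)) *
            (((D + 1) ^ 7 * (q * 3 * (D * m)) : ℕ) : ℝ)
        ≤ 4 * Real.exp (-(a / (8 * (q : ℝ) ^ 2) * s)) *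
            (((D + 1) ^ 7 * (q * 3 * (D * m)) : ℕ) : ℝ) := by
          gcongr
      _ ≤ 4 * Real.exp (-(a / (8 * (q : ℝ) ^ 2) * s)) *
            (((D : ℝ) + 1) ^ 7 * (q * 3 * ((D + 1) * (D + 1)))) := by
          push_cast
          gcongr
          linarith
      _ = 4 * (3 * q) * Real.exp (-(a / (8 * (q : ℝ) ^ 2) * s)) * ((D : ℝ) + 1) ^ 9 := by ring

end SI
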