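import Pool.Agent.Work.MP_433a35_co.SI.Local
import Pool.Agent.Work.MP_433a35_co.Asm.LLL
import Pool.Agent.Work.MP_433a35_co.Asm.Tail

set_option autoImplicit false
set_option linter.unusedSectionVars false

/-! Module PICKS: second application of the local lemma (abstract schemes). -/

namespace SI

open Finset Classical

noncomputable section

variable {V : Type} [Fintype V]

/-- Upper tail for picks: the index `e` picks uniformly one of `L` values, of which at most `n e`
hit. -/
theorem hits {I : Type} [Fintype I] [DecidableEq I] (L : ℕ) (hL : 0 < L) (E : Finset I)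
    (ht : I → Fin L → Prop) (n : I → ℕ) (h1 : ∀ e ∈ E, (univ.filter (ht e)).card ≤ n e)
    (θ : ℝ) (hθ : 0 ≤ θ) (k : ℝ) :
    ((univ.filter fun w : I → Fin L => k < ((E.filter fun e => ht e (w e)).card : ℝ)).card : ℝ) ≤
      Real.exp (θ * (∑ e ∈ E, (n e : ℝ)) / L - k * Real.log (1 + θ)) *
        (Fintype.card (I → Fin L) : ℝ) := by
  have h := MP433A.hits L hL (fun e v => e ∈ E ∧ ht e v) (∑ e ∈ E, (n e : ℝ))
    (by
      rw [← sum_filter_add_sum_filter_not univ (fun e => e ∈ E)]
      have h2 : ∑ e ∈ univ.filter (fun e => e ∉ E),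
          ((univ.filter fun v => e ∈ E ∧ ht e v).card : ℝ) = 0 := by
        refine sum_eq_zero fun e he => ?_
        rw [mem_filter] at he
        have : (univ.filter fun v => e ∈ E ∧ ht e v) = ∅ := by
          rw [filter_eq_empty_iff]
          exact fun v _ hv => he.2 hv.1
        rw [this, card_empty, Nat.cast_zero]
      rw [h2, add_zero]
      have h3 : univ.filter (fun e => e ∈ E) = E := by
        ext e; simp
      rw [h3]
      refine sum_le_sum fun e he => ?_
      have h4 : (univ.filter fun v => e ∈ E ∧ ht e v) = univ.filter (ht e) := by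
        ext v; simp [he]
      rw [h4]
      exact_mod_cast h1 e he) θ hθ k
  have h5 : ∀ w : I → Fin L, (univ.filter fun e => e ∈ E ∧ ht e (w e)) =
      E.filter fun e => ht e (w e) := by
    intro w; ext e; simp
  simp only [h5] at h
  exact h

/-- Every edge picks one of its stages, such that in the set `Tg` of every edge of a stage there
are few targets of edges that picked this stage. -/
theorem picks (G : SimpleGraph V) (D : ℕ) (hD : ∀ v, (univ.filter fun u => G.Adj v u).card ≤ D)
    (St : Type) [Fintype St] (hSt : 0 < Fintype.card St) (B : St → ℕ)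
    (S : ∀ s, Scheme G (B s)) (L : ℕ) (hL : 0 < L)
    (hJ : ∀ x y, G.Adj x y → L ≤ ∑ s, ((S s).lv x y + (S s).lv y x))
    (θ P : ℝ) (hθ : 0 ≤ θ) (hP : 0 ≤ P) (d : St → ℝ)
    (hd : ∀ s, Real.exp (θ * (B s : ℝ) / L - d s * Real.log (1 + θ)) ≤ P)
    (hC : 4 * P * (((D + 1) ^ 7 * Fintype.card St : ℕ) : ℝ) ≤ 1) :
    ∃ p : Sym2 V → St,
      (∀ x y, G.Adj x y → (S (p s(x, y))).lv x y ≠ 0 ∨ (S (p s(x, y))).lv y x ≠ 0) ∧
      ∀ s x y, (S s).lv x y ≠ 0 →
        ((((S s).Tg x y).filter fun y' => ∃ x', p s(x', y') = s ∧ (S s).lv x' y' ≠ 0).card : ℝ) ≤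
          d s := by
  have hStn : Nonempty St := Fintype.card_pos_iff.1 hSt
  -- the number of levels of an edge in a stage
  let me : Sym2 V → St → ℕ := fun e s =>
    (S s).lv (Quot.out e).1 (Quot.out e).2 + (S s).lv (Quot.out e).2 (Quot.out e).1
  have hme : ∀ x y s, me s(x, y) s = (S s).lv x y + (S s).lv y x := by
    intro x y s
    have h1 : s((Quot.out s(x, y)).1, (Quot.out s(x, y)).2) = s(x, y) := Quot.out_eq _
    rw [Sym2.eq_iff] at h1
    simp only [me]
    rcases h1 with ⟨h2, h3⟩ | ⟨h2, h3⟩
    · rw [h2, h3]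
    · rw [h2, h3, add_comm]
  -- the values of the picks
  have hψ : ∀ e : Sym2 V, ∃ ψ : Fin L → St, e ∈ G.edgeSet →
      ∀ s, (univ.filter fun v => ψ v = s).card ≤ me e s := by
    intro e
    by_cases he : e ∈ G.edgeSet
    · have h1 : L ≤ ∑ s, me e s := by
        induction e using Sym2.inductionOn with
        | hf x y =>
          simp only [hme]
          exact hJ x y he
      have h2 : Fintype.card (Fin L) ≤ Fintype.card (Σ s, Fin (me e s)) := by
        simp only [Fintype.card_fin, Fintype.card_sigma]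
        exact h1
      obtain ⟨f⟩ := Function.Embedding.nonempty_of_card_le h2
      refine ⟨fun v => (f v).1, fun _ s => ?_⟩
      have h3 : (univ.filter fun v => (f v).1 = s).card ≤
          (univ.filter fun t : (Σ s, Fin (me e s)) => t.1 = s).card := by
        apply card_le_card_of_injOn f
        · intro v hv
          rw [mem_coe, mem_filter] at hv ⊢
          exact ⟨mem_univ _, hv.2⟩
        · exact fun v _ v' _ h => f.injective h
      have h4 : (univ.filter fun t : (Σ s, Fin (me e s)) => t.1 = s) ⊆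
          (univ : Finset (Fin (me e s))).image (fun j => (⟨s, j⟩ : Σ s, Fin (me e s))) := by
        rintro ⟨s', j⟩ ht
        rw [mem_filter] at ht
        obtain ⟨_, rfl⟩ := ht
        exact mem_image.2 ⟨j, mem_univ _, rfl⟩
      have h5 := (card_le_card h4).trans card_image_le
      rw [card_univ, Fintype.card_fin] at h5
      exact h3.trans h5
    · exact ⟨fun _ => hStn.some, fun h => absurd h he⟩
  choose ψ hψ using hψ
  have hswap : ∀ s x1 y1 x2 y2, (S s).lv x1 y1 ≠ 0 → (S s).lv x2 y2 ≠ 0 →
      s(x1, y1) = s(x2, y2) → x1 = x2 ∧ y1 = y2 := by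
    intro s x1 y1 x2 y2 h1 h2 h
    rw [Sym2.eq_iff] at h
    rcases h with h | ⟨rfl, rfl⟩
    · exact h
    · exact absurd ((S s).asym _ _ h1) h2
  let Cnt : (Sym2 V → Fin L) → St → V → V → Finset V := fun w s x y =>
    ((S s).Tg x y).filter fun y' => ∃ x', ψ s(x', y') (w s(x', y')) = s ∧ (S s).lv x' y' ≠ 0
  let Bad : St × V × V → (Sym2 V → Fin L) → Prop := fun k w =>
    (S k.1).lv k.2.1 k.2.2 ≠ 0 ∧ d k.1 < ((Cnt w k.1 k.2.1 k.2.2).card : ℝ)
  let Sp : St × V × V → Finset (Sym2 V) := fun k =>
    univ.filter fun e => G.Adj k.2.1 k.2.2 ∧ e ∈ G.edgeSet ∧ ∃ y' ∈ bl G 2 k.2.1, y' ∈ e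
  have hmemS : ∀ k e, e ∈ Sp k ↔ G.Adj k.2.1 k.2.2 ∧ e ∈ G.edgeSet ∧
      ∃ y' ∈ bl G 2 k.2.1, y' ∈ e := by
    intro k e
    simp [Sp]
  have : Nonempty (Fin L) := ⟨⟨0, hL⟩⟩
  obtain ⟨w, hw⟩ := MP433A.lll (I := Sym2 V) (Om := fun _ => Fin L) Bad Sp
    (by
      rintro ⟨s, x, y⟩ w w' h ⟨hl, hb⟩
      refine ⟨hl, ?_⟩
      simp only at hl hb ⊢
      have hsame : Cnt w' s x y = Cnt w s x y := by
        ext y'
        simp only [Cnt, mem_filter]
        have hkey : ∀ x', y' ∈ (S s).Tg x y → (S s).lv x' y' ≠ 0 → w s(x', y') = w' s(x', y') := by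
          intro x' hy' hl'
          refine h _ ((hmemS _ _).2 ⟨(S s).adj _ _ hl, (S s).adj _ _ hl', y', ?_,
            Sym2.mem_mk_right _ _⟩)
          exact (S s).loc x y hy'
        constructor
        · rintro ⟨hy', x', hp, hl'⟩
          refine ⟨hy', x', ?_, hl'⟩
          rw [hkey x' hy' hl']
          exact hp
        · rintro ⟨hy', x', hp, hl'⟩
          refine ⟨hy', x', ?_, hl'⟩
          rw [← hkey x' hy' hl']
          exact hp
      rw [hsame]
      exact hb)
    P hP
    (by
      rintro ⟨s, x, y⟩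
      by_cases hl : (S s).lv x y ≠ 0
      · -- the relevant edges
        let Q : Finset (V × V) := (univ : Finset (V × V)).filter fun e =>
          e.2 ∈ (S s).Tg x y ∧ (S s).lv e.1 e.2 ≠ 0
        let E : Finset (Sym2 V) := Q.image fun e => s(e.1, e.2)
        have hmemQ : ∀ e, e ∈ Q ↔ e.2 ∈ (S s).Tg x y ∧ (S s).lv e.1 e.2 ≠ 0 := by
          intro e; simp [Q]
        have h1 := hits L hL E (fun e v => ψ e v = s) (fun e => me e s)
          (by
            intro e he
            obtain ⟨q, hq, rfl⟩ := mem_image.1 he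
            exact hψ _ ((S s).adj _ _ ((hmemQ q).1 hq).2) s) θ hθ (d s)
        have hsum : (∑ e ∈ E, (me e s : ℝ)) ≤ (B s : ℝ) := by
          have h2 : ∑ e ∈ E, me e s = ∑ q ∈ Q, me s(q.1, q.2) s := by
            apply sum_image
            rintro ⟨x1, y1⟩ h1 ⟨x2, y2⟩ h2 h12
            obtain ⟨h3, h4⟩ := hswap s x1 y1 x2 y2 ((hmemQ _).1 h1).2 ((hmemQ _).1 h2).2 h12
            rw [h3, h4]
          have h3 : ∑ q ∈ Q, me s(q.1, q.2) s = ∑ q ∈ Q, (S s).lv q.1 q.2 := by
            refine sum_congr rfl fun q hq => ?_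
            rw [hme, (S s).asym _ _ ((hmemQ q).1 hq).2, add_zero]
          have h4 : ∑ q ∈ Q, (S s).lv q.1 q.2 ≤
              ∑ q ∈ (univ : Finset V) ×ˢ (S s).Tg x y, (S s).lv q.1 q.2 := by
            apply sum_le_sum_of_subset
            intro q hq
            rw [mem_product]
            exact ⟨mem_univ _, ((hmemQ q).1 hq).1⟩
          have h5 : ∑ q ∈ (univ : Finset V) ×ˢ (S s).Tg x y, (S s).lv q.1 q.2 =
              ∑ y' ∈ (S s).Tg x y, ∑ x', (S s).lv x' y' := by
            rw [sum_product_right]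
          have h6 := (S s).bound x y hl
          have h7 : ∑ e ∈ E, me e s ≤ B s := by
            rw [h2, h3]
            exact h4.trans (h5 ▸ h6)
          exact_mod_cast h7
        have hcnt : ∀ w : Sym2 V → Fin L, (Cnt w s x y).card ≤
            (E.filter fun e => ψ e (w e) = s).card := by
          intro w
          let g : V → Sym2 V := fun y' =>
            if h : ∃ x', (S s).lv x' y' ≠ 0 then s(h.choose, y') else s(y', y')
          have hg : ∀ x' y', (S s).lv x' y' ≠ 0 → g y' = s(x', y') := by
            intro x' y' h'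
            have h2 : ∃ x', (S s).lv x' y' ≠ 0 := ⟨x', h'⟩
            simp only [g]
            rw [dif_pos h2, (S s).uniq _ _ _ h2.choose_spec h']
          apply card_le_card_of_injOn g
          · intro y' hy'
            rw [mem_coe, mem_filter] at hy'
            obtain ⟨hy', x', hp, hl'⟩ := hy'
            rw [mem_coe, mem_filter, hg x' y' hl']
            exact ⟨mem_image.2 ⟨(x', y'), (hmemQ _).2 ⟨hy', hl'⟩, rfl⟩, hp⟩
          · intro y1 h1 y2 h2 h12
            rw [mem_coe, mem_filter] at h1 h2
            obtain ⟨_, x1, _, hl1⟩ := h1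
            obtain ⟨_, x2, _, hl2⟩ := h2
            rw [hg x1 y1 hl1, hg x2 y2 hl2] at h12
            exact (hswap s x1 y1 x2 y2 hl1 hl2 h12).2
        have hsub : (univ.filter (Bad (s, x, y))) ⊆
            (univ.filter fun w : Sym2 V → Fin L =>
              d s < ((E.filter fun e => ψ e (w e) = s).card : ℝ)) := by
          intro w hw
          rw [mem_filter] at hw ⊢
          refine ⟨mem_univ _, lt_of_lt_of_le hw.2.2 ?_⟩
          exact_mod_cast hcnt w
        refine (Nat.cast_le.2 (card_le_card hsub)).trans (h1.trans ?_)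
        apply mul_le_mul_of_nonneg_right _ (Nat.cast_nonneg _)
        refine le_trans ?_ (hd s)
        apply Real.exp_le_exp.2
        have hLr : (0 : ℝ) < L := by exact_mod_cast hL
        have h8 : θ * (∑ e ∈ E, (me e s : ℝ)) / L ≤ θ * (B s : ℝ) / L :=
          div_le_div_of_nonneg_right (mul_le_mul_of_nonneg_left hsum hθ) hLr.le
        linarith
      · have h1 : (univ.filter (Bad (s, x, y))) = ∅ := by
          rw [filter_eq_empty_iff]
          intro w _ hb
          exact hl hb.1
        rw [h1, card_empty, Nat.cast_zero]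
        positivity)
    ((D + 1) ^ 7 * Fintype.card St) (Nat.mul_pos (Nat.pow_pos (Nat.succ_pos D)) hSt)
    (by
      rintro ⟨s, x, y⟩
      have hsub : (univ.filter fun k' => ¬ Disjoint (Sp (s, x, y)) (Sp k')) ⊆
          (univ : Finset St) ×ˢ ((bl G 5 x).biUnion fun x' =>
            (univ.filter fun u => G.Adj x' u).image fun y' => (x', y')) := by
        rintro ⟨s', x', y'⟩ hk
        rw [mem_filter] at hk
        obtain ⟨e, he, he'⟩ := not_disjoint_iff.1 hk.2
        rw [hmemS] at he he'
        simp only at he he'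
        obtain ⟨_, hE, y1, hy1, hy1e⟩ := he
        obtain ⟨hxy', _, y2, hy2, hy2e⟩ := he'
        rw [mem_product]
        refine ⟨mem_univ _, ?_⟩
        rw [mem_biUnion]
        refine ⟨x', ?_, mem_image.2 ⟨y', mem_filter.2 ⟨mem_univ _, hxy'⟩, rfl⟩⟩
        have h12 : y2 ∈ bl G 1 y1 := by
          induction e using Sym2.inductionOn with
          | hf a b =>
            have hab : G.Adj a b := hE
            rw [Sym2.mem_iff] at hy1e hy2e
            rcases hy1e with rfl | rfl <;> rcases hy2e with rfl | rfl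
            · exact mem_bl_self G 1 _
            · exact bl_of_adj G hab (mem_bl_self G 0 _)
            · exact bl_of_adj G hab.symm (mem_bl_self G 0 _)
            · exact mem_bl_self G 1 _
        exact bl_trans G (bl_trans G hy1 h12) (bl_symm G hy2)
      refine (card_le_card hsub).trans ?_
      rw [card_product, card_univ, mul_comm]
      apply Nat.mul_le_mul_right
      refine (card_biUnion_le_card_mul _ _ (D + 1) fun x' _ => ?_).trans ?_
      · refine (card_image_le (s := univ.filter fun u => G.Adj x' u)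
          (f := fun y' => (x', y'))).trans ?_
        exact (hD x').trans (Nat.le_succ D)
      · calc (bl G 5 x).card * (D + 1) ≤ (D + 1) ^ 5 * (D + 1) :=
            Nat.mul_le_mul_right _ (card_bl_le G D hD _ x)
          _ = (D + 1) ^ 6 := by ring
          _ ≤ (D + 1) ^ 7 := Nat.pow_le_pow_right (Nat.succ_pos D) (by norm_num))
    hC
  refine ⟨fun e => ψ e (w e), fun x y hxy => ?_, fun s x y hl => ?_⟩
  · have h1 := hψ s(x, y) hxy (ψ s(x, y) (w s(x, y)))
    have h2 : 0 < (univ.filter fun v => ψ s(x, y) v = ψ s(x, y) (w s(x, y))).card :=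
      card_pos.2 ⟨w s(x, y), mem_filter.2 ⟨mem_univ _, rfl⟩⟩
    rw [hme] at h1
    simp only
    by_contra hcon
    push Not at hcon
    omega
  · by_contra hcon
    push Not at hcon
    exact hw (s, x, y) ⟨hl, hcon⟩

end

end SI
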