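import Mathlib

set_option autoImplicit false

/-!
# The pointwise inequality behind the `4/3` theorem

`nl D q k a b` is the number of accepted levels of an oriented edge in a stage of type `k`.
-/

namespace SI

open Finset

/-- The number of accepted levels. -/
def nl (D q k a b : ℕ) : ℕ :=
  ((range q).filter fun l => (q - k) * D + l * a < q * (a + b)).card

/-- The primitive of the level function. -/
noncomputable def prim (q a T : ℝ) : ℝ :=
  if T ≤ 0 then 0 else if T ≤ q * a then T ^ 2 / (2 * a) else q * T - q ^ 2 * a / 2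

lemma nl_card_le (D q k a b : ℕ) : nl D q k a b ≤ q := by
  unfold nl
  exact (card_filter_le _ _).trans (by rw [card_range])

lemma nl_ge (D q k a b : ℕ) (ha : 1 ≤ a) (hk : k ≤ q) :
    min (q : ℝ) (max 0 ((q : ℝ) * (a + b) - (q - k) * D) / a) ≤ (nl D q k a b : ℝ) := by
  have ha0 : (0 : ℝ) < a := by exact_mod_cast ha
  by_cases hc : nl D q k a b < q
  · refine (min_le_right _ _).trans ?_
    have hnot : ¬ ((q - k) * D + nl D q k a b * a < q * (a + b)) := by
      intro hlt
      have hsub : range (nl D q k a b + 1) ⊆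
          (range q).filter fun l => (q - k) * D + l * a < q * (a + b) := by
        intro l hl
        rw [mem_range] at hl
        rw [mem_filter, mem_range]
        refine ⟨by omega, ?_⟩
        have h1 : l * a ≤ nl D q k a b * a := Nat.mul_le_mul_right _ (by omega)
        omega
      have h2 := card_le_card hsub
      rw [card_range] at h2
      unfold nl at h2
      omega
    rw [not_lt] at hnot
    rw [div_le_iff₀ ha0]
    apply max_le
    · positivity
    · have h3 : ((q * (a + b) : ℕ) : ℝ) ≤ (((q - k) * D + nl D q k a b * a : ℕ) : ℝ) := by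
        exact_mod_cast hnot
      push_cast [Nat.cast_sub hk] at h3
      linarith
  · have h1 : nl D q k a b = q := le_antisymm (nl_card_le _ _ _ _ _) (not_lt.1 hc)
    rw [h1]
    exact min_le_left _ _

lemma prim_step (q a T D : ℝ) (ha : 0 < a) (hq : 0 ≤ q) (hD : 0 ≤ D) :
    prim q a T - prim q a (T - D) ≤ D * min q (max 0 T / a) := by
  unfold prim
  have hqa : 0 ≤ q * a := by positivity
  by_cases h1 : T ≤ 0
  · have h2 : T - D ≤ 0 := by linarith
    rw [if_pos h1, if_pos h2, max_eq_left h1]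
    have : min q (0 / a) = 0 := by
      rw [zero_div]; exact min_eq_right hq
    rw [this]
    simp
  · rw [if_neg h1]
    push Not at h1
    rw [max_eq_right h1.le]
    by_cases h3 : T ≤ q * a
    · rw [if_pos h3]
      have h4 : T / a ≤ q := by
        rw [div_le_iff₀ ha]; exact h3
      rw [min_eq_right h4]
      by_cases h5 : T - D ≤ 0
      · rw [if_pos h5, sub_zero, div_le_iff₀ (by positivity)]
        have h6 : D * (T / a) * (2 * a) = 2 * (D * T) := by
          field_simp
        rw [h6]
        nlinarith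
      · rw [if_neg h5, if_pos (by linarith)]
        have h6 : T ^ 2 / (2 * a) - (T - D) ^ 2 / (2 * a) = D * (T / a) - D ^ 2 / (2 * a) := by
          field_simp
          ring
        rw [h6]
        have : 0 ≤ D ^ 2 / (2 * a) := by positivity
        linarith
    · rw [if_neg h3]
      push Not at h3
      have h4 : q ≤ T / a := by
        rw [le_div_iff₀ ha]; exact h3.le
      rw [min_eq_left h4]
      by_cases h5 : T - D ≤ 0
      · rw [if_pos h5]
        have h6 : q * T ≤ q * D := mul_le_mul_of_nonneg_left (by linarith) hq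
        have h7 : 0 ≤ q ^ 2 * a / 2 := by positivity
        linarith
      · rw [if_neg h5]
        by_cases h8 : T - D ≤ q * a
        · rw [if_pos h8]
          have h9 : 0 ≤ (T - D - q * a) ^ 2 / (2 * a) := by positivity
          have h10 : (T - D - q * a) ^ 2 / (2 * a) =
              (T - D) ^ 2 / (2 * a) - (T - D) * q + q ^ 2 * a / 2 := by
            field_simp
            ring
          rw [h10] at h9
          linarith
        · rw [if_neg h8]
          linarith

lemma sum_nl_ge (D q a b : ℕ) (ha : 1 ≤ a) (n : ℕ) (hn : n ≤ q) :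
    prim q a ((q : ℝ) * (a + b) - (q - n) * D) - prim q a ((q : ℝ) * (a + b) - q * D) ≤
      D * ∑ k ∈ Icc 1 n, (nl D q k a b : ℝ) := by
  have ha0 : (0 : ℝ) < a := by exact_mod_cast ha
  induction n with
  | zero => simp
  | succ n ih =>
    rw [sum_Icc_succ_top (by omega), mul_add (D : ℝ)]
    have h1 := ih (by omega)
    have h2 := prim_step q a ((q : ℝ) * (a + b) - (q - (n + 1 : ℕ)) * D) D ha0
      (Nat.cast_nonneg _) (Nat.cast_nonneg _)
    have h3 := nl_ge D q (n + 1) a b ha hn
    have h4 := mul_le_mul_of_nonneg_left h3 (Nat.cast_nonneg (α := ℝ) D)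
    have h5 : (q : ℝ) * (a + b) - (q - (n + 1 : ℕ)) * D - D =
        (q : ℝ) * (a + b) - (q - n) * D := by
      push_cast
      ring
    rw [h5] at h2
    generalize prim q a ((q : ℝ) * (a + b) - (q - (n + 1 : ℕ)) * D) = u at h2 ⊢
    generalize prim q a ((q : ℝ) * (a + b) - (q - n) * D) = v at h1 h2
    generalize prim q a ((q : ℝ) * (a + b) - q * D) = v' at h1 ⊢
    generalize (D : ℝ) * min (q : ℝ) (max 0 ((q : ℝ) * (a + b) - (q - (n + 1 : ℕ)) * D) / a) = y
      at h2 h4
    linarith

/-- **The pointwise inequality.** -/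
theorem ineq (D q a b : ℕ) (hq : 1 ≤ q) (ha : 1 ≤ a) (hb : 1 ≤ b) (haD : a ≤ D) (hbD : b ≤ D) :
    3 * (q : ℝ) ^ 2 * ((a : ℝ) + b) / D ≤
      q * ((nl D q 0 a b : ℝ) + nl D q 0 b a) +
        2 * ∑ k ∈ Icc 1 q, ((nl D q k a b : ℝ) + nl D q k b a) := by
  have ha0 : (0 : ℝ) < a := by exact_mod_cast ha
  have hb0 : (0 : ℝ) < b := by exact_mod_cast hb
  have hq0 : (0 : ℝ) < q := by exact_mod_cast hq
  have haD' : (a : ℝ) ≤ D := by exact_mod_cast haD
  have hbD' : (b : ℝ) ≤ D := by exact_mod_cast hbD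
  have hD0 : (0 : ℝ) < D := lt_of_lt_of_le ha0 haD'
  rw [sum_add_distrib]
  have h1 := sum_nl_ge D q a b ha q le_rfl
  have h2 := sum_nl_ge D q b a hb q le_rfl
  set A : ℝ := ∑ k ∈ Icc 1 q, (nl D q k a b : ℝ) with hA
  set B : ℝ := ∑ k ∈ Icc 1 q, (nl D q k b a : ℝ) with hB
  -- the value of the primitive at the end
  have e1 : prim q a ((q : ℝ) * (a + b) - (q - q) * D) = (q : ℝ) ^ 2 * (b + a / 2) := by
    unfold prim
    have h3 : (q : ℝ) * (a + b) - (q - q) * D = q * (a + b) := by ring
    rw [h3, if_neg (by push Not; positivity), if_neg (by push Not; nlinarith)]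
    ring
  have e2 : prim q b ((q : ℝ) * (b + a) - (q - q) * D) = (q : ℝ) ^ 2 * (a + b / 2) := by
    unfold prim
    have h3 : (q : ℝ) * (b + a) - (q - q) * D = q * (b + a) := by ring
    rw [h3, if_neg (by push Not; positivity), if_neg (by push Not; nlinarith)]
    ring
  rw [e1] at h1
  rw [e2] at h2
  have z1 := nl_ge D q 0 a b ha (Nat.zero_le _)
  have z2 := nl_ge D q 0 b a hb (Nat.zero_le _)
  rw [Nat.cast_zero, sub_zero] at z1 z2
  rw [div_le_iff₀ hD0]
  by_cases hs : (a : ℝ) + b ≤ D
  · -- small case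
    have e3 : prim q a ((q : ℝ) * (a + b) - q * D) = 0 := by
      unfold prim
      rw [if_pos]
      nlinarith
    have e4 : prim q b ((q : ℝ) * (b + a) - q * D) = 0 := by
      unfold prim
      rw [if_pos]
      nlinarith
    rw [e3] at h1
    rw [e4] at h2
    have n1 : (0 : ℝ) ≤ nl D q 0 a b := Nat.cast_nonneg _
    have n2 : (0 : ℝ) ≤ nl D q 0 b a := Nat.cast_nonneg _
    have n3 : 0 ≤ (q : ℝ) * ((nl D q 0 a b : ℝ) + nl D q 0 b a) * D := by positivity
    nlinarith
  · push Not at hs
    have hs' : 0 < (a : ℝ) + b - D := by linarith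
    have e3 : prim q a ((q : ℝ) * (a + b) - q * D) =
        (q : ℝ) ^ 2 * ((a : ℝ) + b - D) ^ 2 / (2 * a) := by
      unfold prim
      have h3 : (q : ℝ) * (a + b) - q * D = q * ((a : ℝ) + b - D) := by ring
      rw [h3, if_neg (by push Not; positivity), if_pos (by nlinarith)]
      ring
    have e4 : prim q b ((q : ℝ) * (b + a) - q * D) =
        (q : ℝ) ^ 2 * ((a : ℝ) + b - D) ^ 2 / (2 * b) := by
      unfold prim
      have h3 : (q : ℝ) * (b + a) - q * D = q * ((a : ℝ) + b - D) := by ring
      rw [h3, if_neg (by push Not; positivity), if_pos (by nlinarith)]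
      ring
    rw [e3] at h1
    rw [e4] at h2
    have z1' : (q : ℝ) * ((a : ℝ) + b - D) / a ≤ nl D q 0 a b := by
      refine le_trans ?_ z1
      apply le_min
      · rw [div_le_iff₀ ha0]
        nlinarith
      · apply div_le_div_of_nonneg_right _ ha0.le
        refine le_trans (le_of_eq ?_) (le_max_right _ _)
        ring
    have z2' : (q : ℝ) * ((a : ℝ) + b - D) / b ≤ nl D q 0 b a := by
      refine le_trans ?_ z2
      apply le_min
      · rw [div_le_iff₀ hb0]
        nlinarith
      · apply div_le_div_of_nonneg_right _ hb0.le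
        refine le_trans (le_of_eq ?_) (le_max_right _ _)
        ring
    have k1 := mul_le_mul_of_nonneg_left z1' hq0.le
    have k2 := mul_le_mul_of_nonneg_left z2' hq0.le
    have key : 0 ≤ (q : ℝ) ^ 2 * (((a : ℝ) + b) * ((a : ℝ) + b - D) * (2 * D - (a + b)) /
        (a * b)) := by
      have : 0 ≤ 2 * (D : ℝ) - (a + b) := by linarith
      positivity
    have id : (q : ℝ) ^ 2 * (((a : ℝ) + b) * ((a : ℝ) + b - D) * (2 * D - (a + b)) / (a * b)) =
        (q * (q * ((a : ℝ) + b - D) / a)) * D + (q * (q * ((a : ℝ) + b - D) / b)) * D +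
          2 * ((q : ℝ) ^ 2 * (b + a / 2) - (q : ℝ) ^ 2 * ((a : ℝ) + b - D) ^ 2 / (2 * a)) +
          2 * ((q : ℝ) ^ 2 * (a + b / 2) - (q : ℝ) ^ 2 * ((a : ℝ) + b - D) ^ 2 / (2 * b)) -
          3 * (q : ℝ) ^ 2 * (a + b) := by
      field_simp
      ring
    rw [id] at key
    have k1' := mul_le_mul_of_nonneg_right k1 hD0.le
    have k2' := mul_le_mul_of_nonneg_right k2 hD0.le
    have goal : ((q : ℝ) * ((nl D q 0 a b : ℝ) + nl D q 0 b a) + 2 * (A + B)) * D =
        (q : ℝ) * (nl D q 0 a b : ℝ) * D + (q : ℝ) * (nl D q 0 b a : ℝ) * D +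
          2 * (D * A) + 2 * (D * B) := by ring
    rw [goal]
    generalize (q : ℝ) * (nl D q 0 a b : ℝ) * D = x1 at k1' ⊢
    generalize (q : ℝ) * (nl D q 0 b a : ℝ) * D = x2 at k2' ⊢
    generalize (D : ℝ) * A = x3 at h1 ⊢
    generalize (D : ℝ) * B = x4 at h2 ⊢
    generalize (q : ℝ) * (q * ((a : ℝ) + b - D) / a) * D = y1 at k1' key
    generalize (q : ℝ) * (q * ((a : ℝ) + b - D) / b) * D = y2 at k2' key
    generalize (q : ℝ) ^ 2 * ((a : ℝ) + b - D) ^ 2 / (2 * a) = y3 at h1 key
    generalize (q : ℝ) ^ 2 * ((a : ℝ) + b - D) ^ 2 / (2 * b) = y4 at h2 key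
    linarith

end SI
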