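import Mathlib

set_option autoImplicit false

/-! Module TELE: the telescoping inequality. -/

namespace SI

open Finset

/-- `g i` = number of live vertices; `1 / N` = probability to ring. -/
theorem tele (D M N : ℕ) (hN : 1 ≤ N) (η c : ℝ) (h0 : 0 ≤ η)
    (h1 : η ≤ 1) (hc : 0 ≤ c) (hp : 2 * (D : ℝ) ≤ η * N) (hM : c * N ≤ η * M) (g : ℕ → ℕ)
    (hg : Antitone g) (hg0 : g 0 ≤ 2 * D) (hg1 : ∀ i, 1 ≤ g i) :
    (1 - η) ^ 2 * c ≤ ∑ i ∈ range M, ((1 / N : ℝ) *
        (1 - 1 / N : ℝ) ^ ((∑ j ∈ range (i + 1), g j) - 1)) * max (c * g (i + 1)) 1 := by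
  have hN0 : (0 : ℝ) < N := by exact_mod_cast hN
  set p : ℝ := 1 / N with hp'
  have hp0 : 0 < p := by positivity
  have hp1 : p ≤ 1 := by
    rw [hp', div_le_one hN0]
    exact_mod_cast hN
  have hq0 : 0 ≤ 1 - p := by linarith
  have hq1 : 1 - p ≤ 1 := by linarith
  set T : ℝ := ∑ i ∈ range M, (p * (1 - p) ^ ((∑ j ∈ range (i + 1), g j) - 1)) *
    max (c * g (i + 1)) 1 with hT
  set S : ℕ → ℕ := fun i => ∑ j ∈ range (i + 1), g j with hS
  have hSs : ∀ i, S (i + 1) = S i + g (i + 1) := fun i => Finset.sum_range_succ g (i + 1)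
  have hSmono : Monotone S := monotone_nat_of_le_succ fun i => by rw [hSs]; omega
  -- first bound
  have b1 : c * ((1 - p) ^ S 0 - (1 - p) ^ S M) ≤ T := by
    have htel : c * ((1 - p) ^ S 0 - (1 - p) ^ S M) =
        ∑ i ∈ range M, c * ((1 - p) ^ S i - (1 - p) ^ S (i + 1)) := by
      rw [← Finset.mul_sum, Finset.sum_range_sub']
    rw [htel, hT]
    refine Finset.sum_le_sum fun i _ => ?_
    have e1 : (1 - p) ^ S (i + 1) = (1 - p) ^ S i * (1 - p) ^ g (i + 1) := by
      rw [hSs, pow_add]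
    have e2 : 1 - p * g (i + 1) ≤ (1 - p) ^ g (i + 1) := by
      have := one_add_mul_le_pow (a := -p) (by linarith) (g (i + 1))
      calc 1 - p * g (i + 1) = 1 + (g (i + 1) : ℝ) * -p := by ring
        _ ≤ (1 + -p) ^ g (i + 1) := this
        _ = (1 - p) ^ g (i + 1) := by ring
    have e3 : (1 - p) ^ S i ≤ (1 - p) ^ (S i - 1) := pow_le_pow_of_le_one hq0 hq1 (Nat.sub_le _ _)
    have e4 : 0 ≤ (1 - p) ^ S i := pow_nonneg hq0 _
    have e5 : 0 ≤ (1 - p) ^ (S i - 1) := pow_nonneg hq0 _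
    have hgn : (0 : ℝ) ≤ g (i + 1) := Nat.cast_nonneg _
    calc c * ((1 - p) ^ S i - (1 - p) ^ S (i + 1))
        = c * ((1 - p) ^ S i * (1 - (1 - p) ^ g (i + 1))) := by rw [e1]; ring
      _ ≤ c * ((1 - p) ^ S i * (p * g (i + 1))) := by
          apply mul_le_mul_of_nonneg_left _ hc
          apply mul_le_mul_of_nonneg_left _ e4
          linarith
      _ ≤ c * ((1 - p) ^ (S i - 1) * (p * g (i + 1))) := by
          apply mul_le_mul_of_nonneg_left _ hc
          apply mul_le_mul_of_nonneg_right e3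
          positivity
      _ = (p * (1 - p) ^ (S i - 1)) * (c * g (i + 1)) := by ring
      _ ≤ (p * (1 - p) ^ (S i - 1)) * max (c * g (i + 1)) 1 := by
          apply mul_le_mul_of_nonneg_left (le_max_left _ _)
          positivity
  -- second bound
  have b2 : (M : ℝ) * (p * (1 - p) ^ S M) ≤ T := by
    have : (M : ℝ) * (p * (1 - p) ^ S M) = ∑ i ∈ range M, p * (1 - p) ^ S M := by
      rw [Finset.sum_const, card_range, nsmul_eq_mul]
    rw [this, hT]
    refine Finset.sum_le_sum fun i hi => ?_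
    have hle : S i - 1 ≤ S M := le_trans (Nat.sub_le _ _) (hSmono (mem_range.mp hi).le)
    have e3 : (1 - p) ^ S M ≤ (1 - p) ^ (S i - 1) := pow_le_pow_of_le_one hq0 hq1 hle
    have e5 : 0 ≤ (1 - p) ^ (S i - 1) := pow_nonneg hq0 _
    calc p * (1 - p) ^ S M ≤ p * (1 - p) ^ (S i - 1) := mul_le_mul_of_nonneg_left e3 hp0.le
      _ = (p * (1 - p) ^ (S i - 1)) * 1 := by ring
      _ ≤ (p * (1 - p) ^ (S i - 1)) * max (c * g (i + 1)) 1 := by
          apply mul_le_mul_of_nonneg_left (le_max_right _ _)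
          positivity
  have b3 : 1 - η ≤ (1 - p) ^ S 0 := by
    have hS0 : S 0 = g 0 := by simp [hS]
    have := one_add_mul_le_pow (a := -p) (by linarith) (S 0)
    have h2 : (S 0 : ℝ) ≤ 2 * D := by rw [hS0]; exact_mod_cast hg0
    have h3 : (S 0 : ℝ) * p ≤ η := by
      calc (S 0 : ℝ) * p ≤ (2 * D) * p := mul_le_mul_of_nonneg_right h2 hp0.le
        _ ≤ (η * N) * p := mul_le_mul_of_nonneg_right hp hp0.le
        _ = η := by rw [hp']; field_simp
    calc 1 - η ≤ 1 + (S 0 : ℝ) * -p := by linarith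
      _ ≤ (1 + -p) ^ S 0 := this
      _ = (1 - p) ^ S 0 := by ring
  have hMp : c ≤ η * (M * p) := by
    have : c * N * p ≤ η * M * p := mul_le_mul_of_nonneg_right hM hp0.le
    have hNp : (N : ℝ) * p = 1 := by rw [hp']; field_simp
    calc c = c * (N * p) := by rw [hNp, mul_one]
      _ = c * N * p := by ring
      _ ≤ η * M * p := this
      _ = η * (M * p) := by ring
  have ht : 0 ≤ (1 - p) ^ S M := pow_nonneg hq0 _
  have hTb : c * (1 - η) ≤ (1 + η) * T := by
    have h5 : c * (1 - p) ^ S M ≤ η * T := by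
      calc c * (1 - p) ^ S M ≤ (η * (M * p)) * (1 - p) ^ S M := mul_le_mul_of_nonneg_right hMp ht
        _ = η * ((M : ℝ) * (p * (1 - p) ^ S M)) := by ring
        _ ≤ η * T := mul_le_mul_of_nonneg_left b2 h0
    have h6 : c * (1 - η) ≤ c * (1 - p) ^ S 0 := mul_le_mul_of_nonneg_left b3 hc
    nlinarith [b1, h5, h6]
  have hT0 : 0 ≤ T := by
    refine le_trans ?_ b2
    positivity
  have hfin : (1 + η) * ((1 - η) ^ 2 * c) ≤ (1 + η) * T := by
    refine le_trans ?_ hTb
    have : (1 + η) * ((1 - η) ^ 2 * c) = c * (1 - η) * (1 - η ^ 2) := by ring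
    rw [this]
    have hcη : 0 ≤ c * (1 - η) := mul_nonneg hc (by linarith)
    nlinarith [sq_nonneg η, mul_nonneg hcη (sq_nonneg η)]
  exact le_of_mul_le_mul_left hfin (by linarith)

end SI
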