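import Pool.Agent.Work.MP_433a35_co.SI.Box
import Pool.Agent.Work.MP_433a35_co.SI.Fib
import Pool.Agent.Work.MP_433a35_co.SI.Tele
import Pool.Agent.Work.MP_433a35_co.SI.Ineq

set_option autoImplicit false
set_option linter.unusedSectionVars false

/-! Module PROB: Claim 2. -/

namespace SI

open Finset Classical

noncomputable section

variable {V : Type} [Fintype V]

/-- The threshold of a type: `0` for `(j, 0)`, `j + 1` for `(j, 1)` and `(j, 2)`. -/
def kk {q : ℕ} (t : Fin q × Fin 3) : ℕ := if t.2 = 0 then 0 else (t.1 : ℕ) + 1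

lemma kk_le {q : ℕ} (t : Fin q × Fin 3) : kk t ≤ q := by
  unfold kk
  split_ifs
  · exact Nat.zero_le _
  · exact t.1.2

lemma sum_kk {q : ℕ} (f : ℕ → ℝ) :
    ∑ t : Fin q × Fin 3, f (kk t) = q * f 0 + 2 * ∑ k ∈ Icc 1 q, f k := by
  rw [Fintype.sum_prod_type]
  have h1 : ∀ j : Fin q, ∑ u : Fin 3, f (kk (j, u)) = f 0 + 2 * f ((j : ℕ) + 1) := by
    intro j
    rw [Fin.sum_univ_three]
    simp only [kk]
    simp
    ring
  rw [sum_congr rfl fun j _ => h1 j, sum_add_distrib, sum_const, card_univ, Fintype.card_fin,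
    nsmul_eq_mul, ← mul_sum]
  congr 2
  rw [Fin.sum_univ_eq_sum_range (fun j => f (j + 1)) q, range_eq_Ico,
    sum_Ico_add' f 0 q 1]
  rfl

/-- On a box the number of levels is at least `nl`. -/
lemma lv_box (G : SimpleGraph V) (r : ℕ → Set V) {x y : V} (h : G.Adj x y) (M D q k i : ℕ)
    (hD : ∀ v, (univ.filter fun u => G.Adj v u).card ≤ D) (hkq : k ≤ q) (hi : i < M)
    (hb : box G r x y i) :
    nl D q k (ga G r x y (i + 1)) (ga G r y x (i + 1)) ≤ lv G r M D q k x y := by
  unfold nl lv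
  apply card_le_card
  intro l hl
  rw [mem_filter] at hl ⊢
  exact ⟨hl.1, i, hi, box_acc G r h D q k i l hD hkq (mem_range.1 hl.1) hb hl.2⟩

/-- Claim 2: the levels, summed over the types and averaged over the coins. -/
theorem prob (G : SimpleGraph V) (D q M N : ℕ) (hD1 : 1 ≤ D) (hq : 1 ≤ q) (hN : 1 ≤ N)
    (hD : ∀ v, (univ.filter fun u => G.Adj v u).card ≤ D) (η : ℝ) (h0 : 0 ≤ η)
    (h1 : η ≤ 1) (hp : 2 * (D : ℝ) ≤ η * N) (hM : (3 * (q : ℝ) ^ 2 / D) * N ≤ η * M)
    (x y : V) (hxy : G.Adj x y) :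
    (1 - η) ^ 2 * (3 * (q : ℝ) ^ 2 / D) * (Fintype.card (V → Fin M → Fin N) : ℝ) ≤
      ∑ t : Fin q × Fin 3, ∑ c : V → Fin M → Fin N,
        ((lv G (rg c) M D q (kk t) x y : ℝ) + lv G (rg c) M D q (kk t) y x) := by
  have hDr : (0 : ℝ) < D := by exact_mod_cast hD1
  have hqr : (1 : ℝ) ≤ q := by exact_mod_cast hq
  rw [sum_comm]
  refine fib_avg M N hN (nb G x y) _ _ fun c0 => ?_
  -- abbreviations
  set W := nb G x y with hW
  set Z : ℕ → Finset V := fun j => gs G (rg c0) x y j with hZ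
  set a : ℕ → ℕ := fun i => ga G (rg c0) x y (i + 1) with ha
  set b : ℕ → ℕ := fun i => ga G (rg c0) y x (i + 1) with hb
  set nx : ℕ → ℝ := fun i => ∑ t : Fin q × Fin 3, (nl D q (kk t) (a i) (b i) : ℝ) with hnx
  set ny : ℕ → ℝ := fun i => ∑ t : Fin q × Fin 3, (nl D q (kk t) (b i) (a i) : ℝ) with hny
  set F := univ.filter (fun c : V → Fin M → Fin N => ∀ v, v ∉ W → c v = c0 v) with hF
  have hnx0 : ∀ i, 0 ≤ nx i := fun i => sum_nonneg fun _ _ => Nat.cast_nonneg _
  have hny0 : ∀ i, 0 ≤ ny i := fun i => sum_nonneg fun _ _ => Nat.cast_nonneg _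
  have hgs : ∀ c ∈ F, ∀ j, gs G (rg c) x y j = Z j := by
    intro c hc j
    apply gs_congr
    intro i z hz
    have := (mem_filter.1 hc).2 z hz
    simp only [rg, Set.mem_ofPred_eq, this]
  have hgs' : ∀ c ∈ F, ∀ j, gs G (rg c) y x j = Z j := by
    intro c hc j
    rw [← gs_comm]
    exact hgs c hc j
  have hga : ∀ c ∈ F, ∀ i, ga G (rg c) x y (i + 1) = a i := by
    intro c hc i
    simp only [ha, ga]
    rw [hgs c hc]
  have hgb : ∀ c ∈ F, ∀ i, ga G (rg c) y x (i + 1) = b i := by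
    intro c hc i
    simp only [hb, ga]
    rw [hgs' c hc, ← gs_comm]
  -- pointwise lower bound
  have hpt : ∀ c ∈ F, ∑ i ∈ range M, ((if box G (rg c) x y i then nx i else 0) +
        (if box G (rg c) y x i then ny i else 0)) ≤
      ∑ t : Fin q × Fin 3, ((lv G (rg c) M D q (kk t) x y : ℝ) + lv G (rg c) M D q (kk t) y x) := by
    intro c hc
    by_cases hex : ∃ i, i < M ∧ box G (rg c) x y i
    · obtain ⟨i, hi, hbi⟩ := hex
      rw [sum_eq_single i]
      · rw [if_pos hbi, if_neg (fun h => box_disj' G (rg c) hxy hbi h), add_zero]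
        simp only [hnx]
        refine sum_le_sum fun t _ => ?_
        have h2 := lv_box G (rg c) hxy M D q (kk t) i hD (kk_le t) hi hbi
        rw [hga c hc, hgb c hc] at h2
        have h3 : (nl D q (kk t) (a i) (b i) : ℝ) ≤ lv G (rg c) M D q (kk t) x y := by
          exact_mod_cast h2
        have h4 : (0 : ℝ) ≤ lv G (rg c) M D q (kk t) y x := Nat.cast_nonneg _
        linarith
      · intro j _ hj
        rw [if_neg (fun h => hj (box_disj G (rg c) hxy h hbi)),
          if_neg (fun h => box_disj' G (rg c) hxy hbi h), add_zero]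
      · intro h
        exact absurd (mem_range.2 hi) h
    · push Not at hex
      by_cases hex' : ∃ i, i < M ∧ box G (rg c) y x i
      · obtain ⟨i, hi, hbi⟩ := hex'
        rw [sum_eq_single i]
        · rw [if_pos hbi, if_neg (hex i hi), zero_add]
          simp only [hny]
          refine sum_le_sum fun t _ => ?_
          have h2 := lv_box G (rg c) hxy.symm M D q (kk t) i hD (kk_le t) hi hbi
          rw [hga c hc, hgb c hc] at h2
          have h3 : (nl D q (kk t) (b i) (a i) : ℝ) ≤ lv G (rg c) M D q (kk t) y x := by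
            exact_mod_cast h2
          have h4 : (0 : ℝ) ≤ lv G (rg c) M D q (kk t) x y := Nat.cast_nonneg _
          linarith
        · intro j hj' hj
          rw [if_neg (hex j (mem_range.1 hj')),
            if_neg (fun h => hj (box_disj G (rg c) hxy.symm h hbi)), add_zero]
        · intro h
          exact absurd (mem_range.2 hi) h
      · push Not at hex'
        rw [sum_eq_zero]
        · exact sum_nonneg fun t _ => by positivity
        · intro i hi
          rw [if_neg (hex i (mem_range.1 hi)), if_neg (hex' i (mem_range.1 hi)), add_zero]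
  -- the counts
  have hcount : ∀ (x' y' : V), G.Adj x' y' → nb G x' y' = W →
      (∀ c ∈ F, ∀ j, gs G (rg c) x' y' j = Z j) → ∀ i, i < M → x' ∈ Z i →
      ((F.filter fun c => box G (rg c) x' y' i).card : ℝ) = (N : ℝ) ^ (M * W.card) *
        ((1 / N : ℝ) * (1 - 1 / N : ℝ) ^ ((∑ j ∈ range (i + 1), (Z j).card) - 1)) := by
    intro x' y' _ _ hg i hi hx'
    have hZW : ∀ j, Z j ⊆ W := by
      intro j z hz
      exact (mem_filter.1 hz).1
    rw [← fib_count M N hN W Z hZW c0 i hi x' hx']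
    congr 1
    apply congrArg
    ext c
    rw [mem_filter]
    simp only [mem_filter, mem_univ, true_and]
    constructor
    · rintro ⟨hc, hbx⟩
      have hc' := (mem_filter.1 hc).2
      obtain ⟨hb1, hb2, hb3⟩ := hbx
      refine ⟨hc', fun j hj hji z hz hzero => ?_, ?_, fun z hz hne hzero => ?_⟩
      · exact hb1 j hji z (by rw [hg c hc]; exact hz) ⟨hj, hzero⟩
      · obtain ⟨h, h'⟩ := hb2
        exact h'
      · exact hb3 z (by rw [hg c hc]; exact hz) hne ⟨hi, hzero⟩
    · rintro ⟨hc', hb1, hb2, hb3⟩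
      have hc : c ∈ F := mem_filter.2 ⟨mem_univ _, hc'⟩
      refine ⟨hc, fun j hj z hz hzr => ?_, ⟨hi, hb2⟩, fun z hz hne hzr => ?_⟩
      · rw [hg c hc] at hz
        obtain ⟨h, h'⟩ := hzr
        exact hb1 j h hj z hz h'
      · rw [hg c hc] at hz
        obtain ⟨h, h'⟩ := hzr
        exact hb3 z hz hne h'
  refine le_trans ?_ (sum_le_sum hpt)
  rw [sum_comm]
  have hxZ : ∀ i, x ∈ Z i := fun i => left_mem_gs G (rg c0) hxy i
  have hyZ : ∀ i, y ∈ Z i := by
    intro i
    have := left_mem_gs G (rg c0) hxy.symm i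
    rw [← gs_comm] at this
    exact this
  have hsum : ∀ i ∈ range M, ∑ c ∈ F, ((if box G (rg c) x y i then nx i else 0) +
        (if box G (rg c) y x i then ny i else 0)) = (N : ℝ) ^ (M * W.card) *
        (((1 / N : ℝ) * (1 - 1 / N : ℝ) ^ ((∑ j ∈ range (i + 1), (Z j).card) - 1)) *
          (nx i + ny i)) := by
    intro i hi
    rw [sum_add_distrib, ← sum_filter, ← sum_filter, sum_const, sum_const, nsmul_eq_mul,
      nsmul_eq_mul, hcount x y hxy rfl hgs i (mem_range.1 hi) (hxZ i),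
      hcount y x hxy.symm (by rw [hW, nb_comm]) hgs' i (mem_range.1 hi) (hyZ i)]
    ring
  rw [sum_congr rfl hsum, ← mul_sum, mul_comm]
  apply mul_le_mul_of_nonneg_left _ (by positivity)
  -- telescoping
  have hN1 : (1 : ℝ) / N ≤ 1 := by
    rw [div_le_one (by exact_mod_cast hN)]
    exact_mod_cast hN
  have hW2 : (Z 0).card ≤ 2 * D := by
    have h2 := card_gs_le G (rg c0) x y 0
    have h3 := ga_le G (rg c0) x y D hD 0
    have h4 := ga_le G (rg c0) y x D hD 0
    simp only [hZ]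
    omega
  refine le_trans (tele D M N hN η (3 * (q : ℝ) ^ 2 / D) h0 h1 (by positivity) hp hM
    (fun i => (Z i).card) (fun i j hij => card_le_card (gs_anti G (rg c0) x y hij)) hW2
    (fun i => card_pos.2 ⟨x, hxZ i⟩)) ?_
  refine sum_le_sum fun i _ => ?_
  apply mul_le_mul_of_nonneg_left _ (by
    have : (0 : ℝ) ≤ 1 - 1 / N := by linarith
    positivity)
  -- the pointwise inequality
  have ha1 : 1 ≤ a i := ga_pos G (rg c0) hxy (i + 1)
  have hb1 : 1 ≤ b i := ga_pos G (rg c0) hxy.symm (i + 1)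
  have haD : a i ≤ D := ga_le G (rg c0) x y D hD (i + 1)
  have hbD : b i ≤ D := ga_le G (rg c0) y x D hD (i + 1)
  have hxyn : nx i + ny i = q * ((nl D q 0 (a i) (b i) : ℝ) + nl D q 0 (b i) (a i)) +
      2 * ∑ k ∈ Icc 1 q, ((nl D q k (a i) (b i) : ℝ) + nl D q k (b i) (a i)) := by
    simp only [hnx, hny]
    rw [sum_kk (fun k => (nl D q k (a i) (b i) : ℝ)), sum_kk (fun k => (nl D q k (b i) (a i) : ℝ)),
      sum_add_distrib]
    ring
  rw [hxyn]
  apply max_le
  · refine le_trans ?_ (ineq D q (a i) (b i) hq ha1 hb1 haD hbD)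
    have h2 : ((Z (i + 1)).card : ℝ) ≤ (a i : ℝ) + b i := by
      exact_mod_cast card_gs_le G (rg c0) x y (i + 1)
    have h3 : (0 : ℝ) ≤ 3 * (q : ℝ) ^ 2 / D := by positivity
    calc 3 * (q : ℝ) ^ 2 / D * ((Z (i + 1)).card : ℝ)
        ≤ 3 * (q : ℝ) ^ 2 / D * ((a i : ℝ) + b i) := mul_le_mul_of_nonneg_left h2 h3
      _ = _ := by ring
  · have h2 : nl D q q (a i) (b i) = q := by
      unfold nl
      rw [filter_true_of_mem, card_range]
      intro l hl
      have h3 := mem_range.1 hl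
      have h4 : l * a i ≤ q * a i := Nat.mul_le_mul_right _ h3.le
      have h5 : 1 * 1 ≤ q * b i := Nat.mul_le_mul hq hb1
      rw [Nat.sub_self, Nat.zero_mul, Nat.mul_add]
      omega
    have h3 : (q : ℝ) ≤ ∑ k ∈ Icc 1 q, ((nl D q k (a i) (b i) : ℝ) + nl D q k (b i) (a i)) := by
      refine le_trans ?_ (single_le_sum (f := fun k => (nl D q k (a i) (b i) : ℝ) +
        nl D q k (b i) (a i)) (fun k _ => by positivity) (mem_Icc.2 ⟨hq, le_rfl⟩))
      rw [h2]
      have : (0 : ℝ) ≤ nl D q q (b i) (a i) := Nat.cast_nonneg _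
      linarith
    have h4 : (0 : ℝ) ≤ q * ((nl D q 0 (a i) (b i) : ℝ) + nl D q 0 (b i) (a i)) := by positivity
    linarith

end

end SI
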