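import Pool.Agent.Work.MP_433a35_co.SI.Conf
import Pool.Agent.Work.MP_433a35_co.SI.Prob
import Pool.Agent.Work.MP_433a35_co.SI.Coins
import Pool.Agent.Work.MP_433a35_co.SI.Picks
import Pool.Agent.Work.MP_433a35_co.SI.Glue
import Pool.Agent.Work.MP_433a35_co.SI.Params

set_option autoImplicit false
set_option linter.unusedSectionVars false

/-! Module FINAL. -/

namespace SI

open Finset Classical

noncomputable section

/-- The two orientations together have at most `q` levels. -/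
lemma lv_add_le {V : Type} [Fintype V] (G : SimpleGraph V) (r : ℕ → Set V) (M D q k : ℕ)
    (x y : V) : lv G r M D q k x y + lv G r M D q k y x ≤ q := by
  by_cases h : lv G r M D q k x y = 0
  · rw [h, zero_add]
    exact lv_le
  · have h2 : lv G r M D q k y x = 0 := by
      by_contra hc
      obtain ⟨i, _, h3⟩ := lv_ne_zero h
      obtain ⟨j, _, h4⟩ := lv_ne_zero hc
      exact hit_asymm h3 h4
    rw [h2, add_zero]
    exact lv_le

lemma sum_B (q D R : ℕ) : ∑ s : (Fin q × Fin 3) × Fin R, (((q + kk s.1 + 1) * D : ℕ) : ℝ) =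
    (R : ℝ) * D * (4 * q * (q + 1)) := by
  rw [Fintype.sum_prod_type]
  simp only [sum_const, card_univ, Fintype.card_fin, nsmul_eq_mul]
  rw [← mul_sum]
  have h := sum_kk (q := q) (fun k => (((q + k + 1) * D : ℕ) : ℝ))
  rw [h]
  have h2 : ∑ k ∈ Icc 1 q, (((q + k + 1) * D : ℕ) : ℝ) = D * (q * (q + 1) + q * (q + 1) / 2) := by
    have h3 : ∑ k ∈ Icc 1 q, (k : ℝ) = q * (q + 1) / 2 := by
      have h4 : ∑ k ∈ Icc 1 q, (k : ℝ) = ∑ k ∈ range (q + 1), (k : ℝ) := by
        rw [range_eq_Ico, sum_eq_sum_Ico_succ_bot (Nat.succ_pos q)]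
        simp
        rfl
      rw [h4]
      have h5 := Finset.sum_range_id_mul_two (q + 1)
      rw [Nat.add_sub_cancel] at h5
      have h6 : ((∑ i ∈ range (q + 1), i : ℕ) : ℝ) * 2 = ((q + 1) * q : ℕ) := by
        exact_mod_cast h5
      push_cast at h6
      linarith
    push_cast
    rw [← sum_mul, sum_add_distrib, sum_add_distrib, h3, sum_const, sum_const]
    simp
    ring
  rw [h2]
  push_cast
  ring

/-- The main theorem for a given `η`. -/
theorem main_eta (η : ℝ) (h0 : 0 < η) (h1 : η ≤ 1 / 10) :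
    ∃ K : ℕ, ∀ (V : Type) [Fintype V] (G : SimpleGraph V) (D : ℕ), K ≤ D →
      (∀ v, (univ.filter fun u => G.Adj v u).card ≤ D) →
      ∃ col : Sym2 V → ℕ,
        (∀ a b, G.Adj a b → (col s(a, b) : ℝ) <
          4 / 3 * ((1 + η) ^ 2 / (1 - η) ^ 3) * D ^ 2) ∧
        ∀ a b c e, G.Adj a b → G.Adj c e → s(a, b) ≠ s(c, e) → (b = c ∨ G.Adj b c) →
          col s(a, b) ≠ col s(c, e) := by
  obtain ⟨q, M, K, hq, hK, hqη, hpar⟩ := params η h0 h1
  refine ⟨K, fun V _ G D hKD hD => ?_⟩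
  obtain ⟨N, m, L, hN, hm, hL, hL1, hL2, hND, hNM, hC1, hC2⟩ := hpar D hKD
  have hD1 : 1 ≤ D := hK.trans hKD
  have hDr : (1 : ℝ) ≤ D := by exact_mod_cast hD1
  have hD0 : (0 : ℝ) < D := by linarith
  have hqr : (1 : ℝ) ≤ q := by exact_mod_cast hq
  have hmr : (1 : ℝ) ≤ m := by exact_mod_cast hm
  have hLr : (0 : ℝ) < L := by exact_mod_cast hL
  have hη1 : 0 < 1 - η := by linarith
  have : Nonempty (Fin N) := ⟨⟨0, hN⟩⟩
  have hRμ : (((D * m : ℕ) : ℝ) * ((1 - η) ^ 2 * (3 * (q : ℝ) ^ 2 / D))) =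
      (1 - η) ^ 2 * (3 * (q : ℝ) ^ 2 * m) := by
    push_cast
    field_simp
  -- the coins
  obtain ⟨w, hw⟩ := coins G D hD (Fin q × Fin 3) (Fin M → Fin N)
    (fun t c x y => lv G (rg c) M D q (kk t) x y + lv G (rg c) M D q (kk t) y x)
    (D * m) q (2 * M + 3) hq (fun t c x y => lv_add_le _ _ _ _ _ _ _ _)
    (by
      intro t c c' x y hxy hcc
      have e1 := lv_local G (rg c) (rg c') M D q (kk t) x y (by
        intro j hj u hu
        have : c u = c' u := hcc u (bl_mono G (by omega) x hu)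
        simp only [rg, Set.mem_ofPred_eq, this])
      have e2 := lv_local G (rg c) (rg c') M D q (kk t) y x (by
        intro j hj u hu
        have : c u = c' u := hcc u (bl_of_adj G hxy hu)
        simp only [rg, Set.mem_ofPred_eq, this])
      simp only [e1, e2])
    ((1 - η) ^ 2 * (3 * (q : ℝ) ^ 2 / D)) η (by positivity) h0.le
    (by
      intro x y hxy
      have := prob G D q M N hD1 hq hN hD η h0.le (by linarith) hND hNM x y hxy
      refine this.trans (le_of_eq ?_)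
      push_cast
      rfl)
    (by
      rw [hRμ]
      exact hC1)
  -- the schemes
  have hsch : ∀ s : (Fin q × Fin 3) × Fin (D * m),
      ∃ S : Scheme G ((q + kk s.1 + 1) * D), S.lv = lv G (rg (w s)) M D q (kk s.1) :=
    fun s => scheme G (rg (w s)) M D q (kk s.1) hD
  choose S hS using hsch
  have hcard : Fintype.card ((Fin q × Fin 3) × Fin (D * m)) = q * 3 * (D * m) := by
    simp
  have hX0 : 0 < (D + 1) ^ 7 * (q * 3 * (D * m)) := by positivity
  have hX : (0 : ℝ) < (((D + 1) ^ 7 * (q * 3 * (D * m)) : ℕ) : ℝ) := by exact_mod_cast hX0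
  obtain ⟨p, hp1, hp2⟩ := picks G D hD ((Fin q × Fin 3) × Fin (D * m))
    (by rw [hcard]; positivity) (fun s => (q + kk s.1 + 1) * D) S L hL
    (by
      intro x y hxy
      have h2 := hw x y hxy
      rw [hRμ] at h2
      have h3 : (L : ℝ) < (∑ s, ((S s).lv x y + (S s).lv y x) : ℕ) + 1 := by
        have h4 : ((∑ s, ((S s).lv x y + (S s).lv y x) : ℕ) : ℝ) =
            ∑ s : (Fin q × Fin 3) × Fin (D * m), ((lv G (rg (w s)) M D q (kk s.1) x y +
              lv G (rg (w s)) M D q (kk s.1) y x : ℕ) : ℝ) := by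
          rw [Nat.cast_sum]
          refine sum_congr rfl fun s _ => ?_
          rw [hS s]
        rw [h4]
        have h5 : (1 - η) * ((1 - η) ^ 2 * (3 * (q : ℝ) ^ 2 * m)) =
            (1 - η) ^ 3 * (3 * (q : ℝ) ^ 2 * m) := by ring
        rw [h5] at h2
        linarith
      have h6 : L < (∑ s, ((S s).lv x y + (S s).lv y x)) + 1 := by exact_mod_cast h3
      omega)
    η (1 / (4 * (((D + 1) ^ 7 * (q * 3 * (D * m)) : ℕ) : ℝ))) h0.le (by positivity)
    (fun s => (1 + η) * (((q + kk s.1 + 1) * D : ℕ) : ℝ) / L)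
    (by
      intro s
      rw [le_div_iff₀ (by positivity)]
      have := hC2 (kk s.1) (kk_le s.1)
      linarith)
    (by
      rw [hcard]
      have : 4 * (1 / (4 * (((D + 1) ^ 7 * (q * 3 * (D * m)) : ℕ) : ℝ))) *
          (((D + 1) ^ 7 * (q * 3 * (D * m)) : ℕ) : ℝ) = 1 := by
        field_simp
      exact this.le)
  -- the colouring
  obtain ⟨col, hcol1, hcol2⟩ := glue G ((Fin q × Fin 3) × Fin (D * m))
    (fun s => (q + kk s.1 + 1) * D) S
    (fun s => ⌊(1 + η) * (((q + kk s.1 + 1) * D : ℕ) : ℝ) / L⌋₊) p hp1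
    (fun s x y h => Nat.le_floor (hp2 s x y h))
  refine ⟨col, fun a b hab => ?_, hcol2⟩
  have h2 : (col s(a, b) : ℝ) < ((∑ s : (Fin q × Fin 3) × Fin (D * m),
      ⌊(1 + η) * (((q + kk s.1 + 1) * D : ℕ) : ℝ) / L⌋₊ : ℕ) : ℝ) := by
    exact_mod_cast hcol1 a b hab
  refine h2.trans_le ?_
  rw [Nat.cast_sum]
  have h3 : ∑ s : (Fin q × Fin 3) × Fin (D * m),
      ((⌊(1 + η) * (((q + kk s.1 + 1) * D : ℕ) : ℝ) / L⌋₊ : ℕ) : ℝ) ≤
      ∑ s : (Fin q × Fin 3) × Fin (D * m),
        (1 + η) / L * (((q + kk s.1 + 1) * D : ℕ) : ℝ) := by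
    refine sum_le_sum fun s _ => ?_
    refine (Nat.floor_le (by positivity)).trans (le_of_eq ?_)
    ring
  refine h3.trans ?_
  rw [← mul_sum, sum_B]
  have hE : (0 : ℝ) < (1 - η) ^ 3 * (3 * (q : ℝ) ^ 2 * m) := by positivity
  have h4 : (1 + η) / L ≤ (1 + η) / ((1 - η) ^ 3 * (3 * (q : ℝ) ^ 2 * m)) :=
    div_le_div_of_nonneg_left (by linarith) hE hL2
  have h5 : (0 : ℝ) ≤ ((D * m : ℕ) : ℝ) * D * (4 * q * (q + 1)) := by positivity
  refine (mul_le_mul_of_nonneg_right h4 h5).trans ?_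
  have h6 : (1 + η) / ((1 - η) ^ 3 * (3 * (q : ℝ) ^ 2 * m)) *
      (((D * m : ℕ) : ℝ) * D * (4 * q * (q + 1))) =
      4 / 3 * ((1 + η) * (1 + 1 / q) / (1 - η) ^ 3) * D ^ 2 := by
    push_cast
    field_simp
  rw [h6]
  apply mul_le_mul_of_nonneg_right _ (by positivity)
  apply mul_le_mul_of_nonneg_left _ (by norm_num)
  apply div_le_div_of_nonneg_right _ (by positivity)
  have h7 : (1 : ℝ) / q ≤ η := by
    rw [div_le_iff₀ (by linarith)]
    exact hqη
  nlinarith

/-- **Theorem.** For every `ε > 0` every finite graph with maximum degree at most `D`, `D` large,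
has a strong edge colouring with fewer than `(4/3 + ε) D²` colours. -/
theorem main (ε : ℝ) (hε : 0 < ε) :
    ∃ K : ℕ, ∀ (V : Type) [Fintype V] (G : SimpleGraph V) (D : ℕ), K ≤ D →
      (∀ v, (G.neighborSet v).ncard ≤ D) →
      ∃ col : Sym2 V → ℕ,
        (∀ a b, G.Adj a b → (col s(a, b) : ℝ) < (4 / 3 + ε) * D ^ 2) ∧
        ∀ a b c e, G.Adj a b → G.Adj c e → s(a, b) ≠ s(c, e) → (b = c ∨ G.Adj b c) →
          col s(a, b) ≠ col s(c, e) := by
  set η : ℝ := min (1 / 10) (ε / 10) with hη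
  have h0 : 0 < η := lt_min (by norm_num) (by linarith)
  have h1 : η ≤ 1 / 10 := min_le_left _ _
  have h2 : η ≤ ε / 10 := min_le_right _ _
  obtain ⟨K, hK⟩ := main_eta η h0 h1
  refine ⟨K, fun V _ G D hKD hD => ?_⟩
  obtain ⟨col, hc1, hc2⟩ := hK V G D hKD (by
    intro v
    refine le_trans (le_of_eq ?_) (hD v)
    rw [Set.ncard_eq_toFinset_card']
    congr 1
    ext u
    simp)
  refine ⟨col, fun a b hab => (hc1 a b hab).trans_le ?_, hc2⟩
  apply mul_le_mul_of_nonneg_right _ (by positivity)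
  have h3 : (0 : ℝ) < (1 - η) ^ 3 := by
    have : 0 < 1 - η := by linarith
    positivity
  have h4 : (1 + η) ^ 2 / (1 - η) ^ 3 ≤ 1 + 15 / 2 * η := by
    rw [div_le_iff₀ h3]
    have h5 : 1 - 3 * η ≤ (1 - η) ^ 3 := by nlinarith [mul_pos h0 h0]
    have h6 : (1 + 15 / 2 * η) * (1 - 3 * η) ≤ (1 + 15 / 2 * η) * (1 - η) ^ 3 :=
      mul_le_mul_of_nonneg_left h5 (by positivity)
    nlinarith
  nlinarith

end

end SI
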