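import Pool.Agent.Work.MP_433a35_co.SI.Defs

set_option autoImplicit false
set_option linter.unusedSectionVars false

/-! Module LOCAL: balls, and the levels depend only on the coins near the edge. -/

namespace SI

open Finset Classical

noncomputable section

variable {V : Type} [Fintype V]

lemma mem_bl_succ (G : SimpleGraph V) (n : ℕ) (v w : V) :
    w ∈ bl G (n + 1) v ↔ w ∈ bl G n v ∨ ∃ u ∈ bl G n v, G.Adj u w := by
  simp only [bl, mem_union, mem_biUnion, mem_filter, mem_univ, true_and]

lemma mem_bl_self (G : SimpleGraph V) (n : ℕ) (v : V) : v ∈ bl G n v := by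
  induction n with
  | zero => simp [bl]
  | succ n ih => exact (mem_bl_succ G n v v).2 (Or.inl ih)

lemma bl_mono (G : SimpleGraph V) {m n : ℕ} (h : m ≤ n) (v : V) : bl G m v ⊆ bl G n v := by
  induction n, h using Nat.le_induction with
  | base => exact subset_rfl
  | succ n _ ih => exact fun w hw => (mem_bl_succ G n v w).2 (Or.inl (ih hw))

/-- Step at the near end. -/
lemma bl_of_adj (G : SimpleGraph V) {n : ℕ} {u v w : V} (h : G.Adj v u) (hw : w ∈ bl G n u) :
    w ∈ bl G (n + 1) v := by
  induction n generalizing w with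
  | zero =>
    have hwu : w = u := by simpa [bl] using hw
    subst hwu
    exact (mem_bl_succ G 0 v w).2 (Or.inr ⟨v, mem_bl_self G 0 v, h⟩)
  | succ n ih =>
    rcases (mem_bl_succ G n u w).1 hw with h1 | ⟨z, hz, hzw⟩
    · exact bl_mono G (Nat.le_succ _) v (ih h1)
    · exact (mem_bl_succ G (n + 1) v w).2 (Or.inr ⟨z, ih hz, hzw⟩)

lemma bl_symm (G : SimpleGraph V) {n : ℕ} {u v : V} (h : u ∈ bl G n v) : v ∈ bl G n u := by
  induction n generalizing u with
  | zero =>
    have huv : u = v := by simpa [bl] using h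
    subst huv
    exact mem_bl_self G 0 u
  | succ n ih =>
    rcases (mem_bl_succ G n v u).1 h with h1 | ⟨z, hz, hzu⟩
    · exact bl_mono G (Nat.le_succ _) u (ih h1)
    · exact bl_of_adj G hzu.symm (ih hz)

lemma bl_trans (G : SimpleGraph V) {m n : ℕ} {u v w : V} (h : u ∈ bl G m v)
    (h' : w ∈ bl G n u) : w ∈ bl G (m + n) v := by
  induction n generalizing w with
  | zero =>
    have hwu : w = u := by simpa [bl] using h'
    subst hwu
    exact h
  | succ n ih =>
    rcases (mem_bl_succ G n u w).1 h' with h1 | ⟨z, hz, hzw⟩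
    · exact bl_mono G (Nat.le_succ _) v (ih h1)
    · exact (mem_bl_succ G (m + n) v w).2 (Or.inr ⟨z, ih hz, hzw⟩)

lemma card_bl_le (G : SimpleGraph V) (D : ℕ)
    (hD : ∀ v, (univ.filter fun u => G.Adj v u).card ≤ D) (n : ℕ) (v : V) :
    (bl G n v).card ≤ (D + 1) ^ n := by
  induction n with
  | zero => simp [bl]
  | succ n ih =>
    have h1 : (bl G (n + 1) v).card ≤ (bl G n v).card + (bl G n v).card * D := by
      refine le_trans (card_union_le _ _) ?_
      refine Nat.add_le_add_left ?_ _
      exact card_biUnion_le_card_mul _ _ _ fun u _ => hD u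
    calc (bl G (n + 1) v).card ≤ (bl G n v).card + (bl G n v).card * D := h1
      _ = (bl G n v).card * (D + 1) := by ring
      _ ≤ (D + 1) ^ n * (D + 1) := Nat.mul_le_mul_right _ ih
      _ = (D + 1) ^ (n + 1) := (pow_succ _ _).symm

lemma chs_local (G : SimpleGraph V) (A A' ρ ρ' : Set V) (u : V)
    (hA : ∀ w ∈ bl G 1 u, (w ∈ A ↔ w ∈ A')) (hρ : ∀ w ∈ bl G 1 u, (w ∈ ρ ↔ w ∈ ρ')) :
    u ∈ chs G A ρ ↔ u ∈ chs G A' ρ' := by
  have hu := mem_bl_self G 1 u
  have hadj : ∀ w, G.Adj u w → w ∈ bl G 1 u := fun w hw =>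
    (mem_bl_succ G 0 u w).2 (Or.inr ⟨u, mem_bl_self G 0 u, hw⟩)
  simp only [chs, Set.mem_setOf_eq]
  rw [hA u hu, hρ u hu]
  refine and_congr_right fun _ => and_congr_right fun _ => ?_
  refine forall_congr' fun w => ?_
  by_cases hw : G.Adj u w
  · rw [hA w (hadj w hw), hρ w (hadj w hw)]
  · simp [hw]

lemma al_local (G : SimpleGraph V) (r r' : ℕ → Set V) (i : ℕ) (v : V)
    (h : ∀ j, j < i → ∀ u ∈ bl G (2 * i) v, (u ∈ r j ↔ u ∈ r' j)) :
    v ∈ al G r i ↔ v ∈ al G r' i := by
  induction i generalizing v with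
  | zero => simp [al]
  | succ i ih =>
    have hadj1 : ∀ w, G.Adj v w → w ∈ bl G 1 v := fun w hw =>
      (mem_bl_succ G 0 v w).2 (Or.inr ⟨v, mem_bl_self G 0 v, hw⟩)
    -- live sets agree on the ball of radius 2
    have hal : ∀ w ∈ bl G 2 v, (w ∈ al G r i ↔ w ∈ al G r' i) := by
      intro w hw
      refine ih w fun j hj u hu => h j (by omega) u ?_
      exact bl_mono G (by omega) v (bl_trans G hw hu)
    have hr : ∀ w ∈ bl G 2 v, (w ∈ r i ↔ w ∈ r' i) := by
      intro w hw
      exact h i (Nat.lt_succ_self i) w (bl_mono G (by omega) v hw)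
    have hch : ∀ u ∈ bl G 1 v, (u ∈ chs G (al G r i) (r i) ↔ u ∈ chs G (al G r' i) (r' i)) := by
      intro u hu
      refine chs_local G _ _ _ _ u (fun w hw => hal w ?_) (fun w hw => hr w ?_)
      · exact bl_trans G hu hw
      · exact bl_trans G hu hw
    simp only [al_succ, nxt, Set.mem_setOf_eq]
    rw [hal v (mem_bl_self G 2 v), hch v (mem_bl_self G 1 v)]
    refine and_congr_right fun _ => and_congr_right fun _ => ?_
    refine forall_congr' fun u => ?_
    by_cases hu : G.Adj v u
    · rw [hch u (hadj1 u hu)]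
    · simp [hu]

theorem lv_local (G : SimpleGraph V) (r r' : ℕ → Set V) (M D q k : ℕ) (x y : V)
    (h : ∀ j, j < M → ∀ u ∈ bl G (2 * M + 2) x, (u ∈ r j ↔ u ∈ r' j)) :
    lv G r M D q k x y = lv G r' M D q k x y := by
  unfold lv
  congr 1
  refine filter_congr fun l _ => ?_
  refine exists_congr fun i => and_congr_right fun hi => ?_
  by_cases hxy : G.Adj x y
  swap
  · constructor
    · intro h1; exact absurd h1.1.1 hxy
    · intro h1; exact absurd h1.1.1 hxy
  have hadj : ∀ w, G.Adj x w → w ∈ bl G 2 x := fun w hw =>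
    bl_mono G (by omega) x ((mem_bl_succ G 0 x w).2 (Or.inr ⟨x, mem_bl_self G 0 x, hw⟩))
  have hy1 : y ∈ bl G 1 x := (mem_bl_succ G 0 x y).2 (Or.inr ⟨x, mem_bl_self G 0 x, hxy⟩)
  have hadjy : ∀ w, G.Adj y w → w ∈ bl G 2 x := fun w hw =>
    (mem_bl_succ G 1 x w).2 (Or.inr ⟨y, hy1, hw⟩)
  have hal : ∀ j, j ≤ M → ∀ w ∈ bl G 2 x, (w ∈ al G r j ↔ w ∈ al G r' j) := by
    intro j hj w hw
    refine al_local G r r' j w fun m hm u hu => h m (by omega) u ?_
    exact bl_mono G (by omega) x (bl_trans G hw hu)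
  have hr : ∀ w ∈ bl G 2 x, (w ∈ r i ↔ w ∈ r' i) := fun w hw =>
    h i hi w (bl_mono G (by omega) x hw)
  have hit_eq : hit G r i x y ↔ hit G r' i x y := by
    unfold hit
    rw [hal i hi.le x (mem_bl_self G 2 x), hal i hi.le y (hadj y hxy), hr x (mem_bl_self G 2 x)]
    refine and_congr_right fun _ => and_congr_right fun _ => and_congr_right fun _ =>
      and_congr_right fun _ => ?_
    refine forall_congr' fun z => ?_
    by_cases hz : G.Adj x z ∨ G.Adj y z
    · have hz2 : z ∈ bl G 2 x := by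
        rcases hz with hz | hz
        · exact hadj z hz
        · exact hadjy z hz
      rw [hal i hi.le z hz2, hr z hz2]
    · simp [hz]
  have hst : st G r i x = st G r' i x := by
    unfold st
    refine filter_congr fun z _ => and_congr_right fun hz => ?_
    exact hal i hi.le z (hadj z hz)
  have hkx : kx G r i x = kx G r' i x := by
    unfold kx
    refine filter_congr fun z _ => and_congr_right fun hz => not_congr ?_
    exact hal i hi.le z (hadj z hz)
  have hky : ky G r i x y = ky G r' i x y := by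
    unfold ky
    refine filter_congr fun z _ => and_congr_right fun hz => and_congr_right fun _ =>
      and_congr_right fun _ => not_congr ?_
    exact hal (i + 1) hi z (hadjy z hz)
  unfold accAt
  rw [hit_eq, hst, hkx, hky]

end

end SI
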