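import Pool.Agent.Work.MP_433a35_co.SI.Defs
import Pool.Agent.Work.MP_433a35_co.Asm.Greedy

set_option autoImplicit false
set_option linter.unusedSectionVars false

/-! Module STAGE: greedy colouring of one stage, in the order of the ranks. -/

namespace SI

open Finset Classical

noncomputable section

variable {V : Type} [Fintype V]

lemma near_symm {G : SimpleGraph V} {x y x' y' : V} (h : near G x y x' y') :
    near G x' y' x y := by
  unfold near at h ⊢
  rcases h with h | h | h | h | h | h | h | h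
  · exact Or.inl h.symm
  · exact Or.inr (Or.inr (Or.inl h.symm))
  · exact Or.inr (Or.inl h.symm)
  · exact Or.inr (Or.inr (Or.inr (Or.inl h.symm)))
  · exact Or.inr (Or.inr (Or.inr (Or.inr (Or.inl h.symm))))
  · exact Or.inr (Or.inr (Or.inr (Or.inr (Or.inr (Or.inr (Or.inl h.symm))))))
  · exact Or.inr (Or.inr (Or.inr (Or.inr (Or.inr (Or.inl h.symm)))))
  · exact Or.inr (Or.inr (Or.inr (Or.inr (Or.inr (Or.inr (Or.inr h.symm))))))

/-- The edges `xy` of the stage with `C x y` can be coloured with `d` colours if every such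
edge has at most `d` targets of such edges in its set `Tg`.  The colour is a function of the target
(which determines the edge). -/
theorem stage_colour (G : SimpleGraph V) {B : ℕ} (S : Scheme G B) (d : ℕ) (C : V → V → Prop)
    (hd : ∀ x y, C x y → S.lv x y ≠ 0 →
      ((S.Tg x y).filter fun y' => ∃ x', C x' y' ∧ S.lv x' y' ≠ 0).card ≤ d) :
    ∃ col : V → ℕ, (∀ x y, C x y → S.lv x y ≠ 0 → col y < d) ∧
      ∀ x y x' y', C x y → S.lv x y ≠ 0 → C x' y' → S.lv x' y' ≠ 0 →
        s(x, y) ≠ s(x', y') → near G x y x' y' → col y ≠ col y' := by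
  -- the source of a target
  have hf : ∃ f : V → V, ∀ y, (∃ x, C x y ∧ S.lv x y ≠ 0) → C (f y) y ∧ S.lv (f y) y ≠ 0 := by
    refine ⟨fun y => if h : ∃ x, C x y ∧ S.lv x y ≠ 0 then h.choose else y, fun y hy => ?_⟩
    simp only
    rw [dif_pos hy]
    exact hy.choose_spec
  obtain ⟨f, hf⟩ := hf
  have hff : ∀ x y, C x y → S.lv x y ≠ 0 → f y = x := fun x y hC hl =>
    S.uniq _ _ y (hf y ⟨x, hC, hl⟩).2 hl
  let σ := Fintype.equivFin V
  let n := Fintype.card V
  have hσ : ∀ e, (σ e).val < n := fun e => (σ e).isLt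
  obtain ⟨col, hc1, hc2⟩ := MP433A.greedy (Y := V) d
    (fun y => S.rk (f y) y * n + (σ y).val)
    (by
      intro y z hyz
      simp only at hyz
      have h3 : (σ y).val = (σ z).val := by
        have := congrArg (· % n) hyz
        simp only [Nat.mul_add_mod_self_right, Nat.mod_eq_of_lt (hσ y),
          Nat.mod_eq_of_lt (hσ z)] at this
        exact this
      exact σ.injective (Fin.ext h3))
    (fun y => ∃ x, C x y ∧ S.lv x y ≠ 0)
    (fun y z => (∃ x, C x y ∧ S.lv x y ≠ 0) ∧ (∃ x, C x z ∧ S.lv x z ≠ 0) ∧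
      s(f y, y) ≠ s(f z, z) ∧ near G (f y) y (f z) z)
    (by
      rintro y z ⟨hy, hz, hne, hn⟩
      exact ⟨hz, hy, fun h => hne h.symm, near_symm hn⟩)
    (by
      intro y hy
      obtain ⟨hC, hl⟩ := hf y hy
      have hself : y ∈ (S.Tg (f y) y).filter fun y' => ∃ x', C x' y' ∧ S.lv x' y' ≠ 0 :=
        mem_filter.2 ⟨S.self _ _ hl, hy⟩
      refine ⟨((S.Tg (f y) y).filter fun y' => ∃ x', C x' y' ∧ S.lv x' y' ≠ 0).erase y, ?_, ?_⟩
      · rw [card_erase_of_mem hself]
        have h1 := hd _ _ hC hl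
        have h2 : 0 < ((S.Tg (f y) y).filter fun y' => ∃ x', C x' y' ∧ S.lv x' y' ≠ 0).card :=
          card_pos.2 ⟨y, hself⟩
        omega
      · rintro z hlt ⟨_, hz, hne, hn⟩
        have hzy : z ≠ y := by
          rintro rfl
          exact lt_irrefl _ hlt
        rw [mem_erase, mem_filter]
        refine ⟨hzy, S.conf _ _ (f z) z hl (hf z hz).2 hne hn ?_, hz⟩
        by_contra hcon
        push Not at hcon
        have h1 : (S.rk (f y) y + 1) * n ≤ S.rk (f z) z * n := Nat.mul_le_mul_right _ hcon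
        have h2 := hσ y
        rw [add_mul, one_mul] at h1
        omega)
  refine ⟨col, fun x y hC hl => hc1 y ⟨x, hC, hl⟩, ?_⟩
  intro x y x' y' hC hl hC' hl' hne hn
  have hyy : y ≠ y' := by
    rintro rfl
    apply hne
    rw [S.uniq x x' y hl hl']
  refine hc2 y y' ⟨x, hC, hl⟩ ⟨x', hC', hl'⟩ hyy ⟨⟨x, hC, hl⟩, ⟨x', hC', hl'⟩, ?_, ?_⟩
  · rw [hff x y hC hl, hff x' y' hC' hl']
    exact hne
  · rw [hff x y hC hl, hff x' y' hC' hl']
    exact hn

end

end SI
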